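import Pool.Agent.helper6.RF.FIN2
import Pool.Agent.helper95.RF.SpecC3

set_option autoImplicit false

/-!
# RF (MP_16912e_nt), stage 2, final sums for the points `IsPt2` (helper95, SpecC3) and the counting of helper13 (SpecU)
-/

namespace Pool.Agent.RF

open Finset NumberField

/-- OUTPUT OF BLOCK B' (helper13): `gg f p` = bad part of the point, `hh f g` = the rest of `f` at the primes of `g` -/
def BT_stmt : Prop := ∃ (gg : ℕ → Pt → ℕ) (hh : ℕ → ℕ → ℕ),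
  (∀ (p : Pt) (D₀ : ℤ) (f : ℕ), IsPt2 p → Squarefree D₀ → p.D = D₀ * (f : ℤ) ^ 2 →
    gg f p * hh f (gg f p) ∣ f ∧ hh f (gg f p) ∣ (gg f p) ^ 14 ∧
    (gg f p = 1 → hh f 1 = 1) ∧
    (gg f p ≠ 1 → ∃ l : ℕ, l.Prime ∧ l ∣ gg f p ∧
      ((l : OO) ∣ p.n ∨ ((l : ℤ) ∣ p.k.norm ∧ (l : ℤ) ∣ p.n.norm)))) ∧
  (∀ e : ℝ, 0 < e → ∃ C : ℝ, ∀ (D₀ : ℤ) (f g : ℕ), 1 < D₀ → Squarefree D₀ → ¬ (5 : ℤ) ∣ D₀ →
    ∀ (K : Type) [Field K] [NumberField K], Module.finrank ℚ K = 2 → (∃ x : K, x ^ 2 = D₀) → ∀ S : Finset Pt,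
    (∀ p ∈ S, IsPt2 p ∧ p.D = D₀ * (f : ℤ) ^ 2 ∧ gg f p = g ∧ |p.n.norm| ≤ p.D) →
    (∀ p ∈ S, ∀ q ∈ S, p.k ∣ q.k → q.k ∣ p.k → p.k = q.k) →
    (S.card : ℝ) ≤ C * (f : ℝ) ^ e *
      ((Nat.card {c : ClassGroup (𝓞 K) // c ^ 5 = 1} : ℝ) * (1 + (hh f g : ℝ) ^ 2))) ∧
  (∀ (D₀ : ℤ) (f : ℕ), 1 < D₀ → Squarefree D₀ → ¬ (5 : ℤ) ∣ D₀ → 2000 * (f : ℤ) ^ 2 < D₀ →
    ∀ (K : Type) [Field K] [NumberField K], Module.finrank ℚ K = 2 → (∃ x : K, x ^ 2 = D₀) → ∀ S : Finset Pt,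
    (∀ p ∈ S, IsPt2 p ∧ p.D = D₀ * (f : ℤ) ^ 2 ∧ gg f p = 1 ∧ |p.n.norm| ≤ p.D) →
    (∀ p ∈ S, ∀ q ∈ S, p.k ∣ q.k → q.k ∣ p.k → p.k = q.k) →
    (S.card : ℝ) ≤ ((Nat.card {c : ClassGroup (𝓞 K) // c ^ 5 = 1} : ℝ) - 1) * (1 + 181 * 36 ^ f.primeFactors.card))

/-- the decomposition `D = D₀ f²` -/
theorem DEC3 (p : Pt) (hD0 : 0 < p.D) (hD : p.D % 20 = 17) (x : ℕ) (hx : p.D ≤ x) : ∃ d f : ℕ,
    p.D = (d : ℤ) * (f : ℤ) ^ 2 ∧ Adm d ∧ 1 ≤ d ∧ 1 ≤ f ∧ ¬ (5 : ℤ) ∣ (d : ℤ) ∧ d * f ^ 2 ≤ x ∧ 1 < (d : ℤ) ∧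
    Squarefree (d : ℤ) := by
  obtain ⟨d, f, h1, h2⟩ := Nat.sq_mul_squarefree p.D.toNat
  have h3 : p.D = (d : ℤ) * (f : ℤ) ^ 2 := by
    have h4 : ((p.D.toNat : ℕ) : ℤ) = p.D := Int.toNat_of_nonneg hD0.le
    rw [← h4, ← h1]
    push_cast
    ring
  have hd0 : 1 ≤ d := by
    rcases Nat.eq_zero_or_pos d with h | h
    · rw [h3, h] at hD0
      simp at hD0
    · exact h
  have hf0 : 1 ≤ f := by
    rcases Nat.eq_zero_or_pos f with h | h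
    · rw [h3, h] at hD0
      simp at hD0
    · exact h
  have hmod : (d * f ^ 2) % 20 = 17 := by
    rw [h3] at hD
    exact_mod_cast hD
  have e4 : (d % 4 * (f % 4) ^ 2) % 4 = 1 := by
    have h5 : (d * f ^ 2) % 4 = 1 := by omega
    have h6 : (d % 4 * (f % 4) ^ 2) % 4 = (d * f ^ 2) % 4 := (Nat.mod_modEq d 4).mul ((Nat.mod_modEq f 4).pow 2)
    rw [h6, h5]
  have e5 : (d % 5 * (f % 5) ^ 2) % 5 = 2 := by
    have h5 : (d * f ^ 2) % 5 = 2 := by omega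
    have h6 : (d % 5 * (f % 5) ^ 2) % 5 = (d * f ^ 2) % 5 := (Nat.mod_modEq d 5).mul ((Nat.mod_modEq f 5).pow 2)
    rw [h6, h5]
  have hd4 : d % 4 = 1 := by
    have i1 : d % 4 < 4 := Nat.mod_lt _ (by norm_num)
    have i2 : f % 4 < 4 := Nat.mod_lt _ (by norm_num)
    revert e4 i1 i2
    generalize d % 4 = a
    generalize f % 4 = b
    intro h i1 i2
    interval_cases a <;> interval_cases b <;> simp_all
  have hd5 : d % 5 ≠ 0 ∧ d % 5 ≠ 1 := by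
    have i1 : d % 5 < 5 := Nat.mod_lt _ (by norm_num)
    have i2 : f % 5 < 5 := Nat.mod_lt _ (by norm_num)
    revert e5 i1 i2
    generalize d % 5 = a
    generalize f % 5 = b
    intro h i1 i2
    interval_cases a <;> interval_cases b <;> simp_all
  refine ⟨d, f, h3, ⟨hd4, by omega, h2⟩, hd0, hf0, by omega, ?_, by omega, ?_⟩
  · have : (d : ℤ) * (f : ℤ) ^ 2 ≤ x := by rw [← h3]; exact hx
    exact_mod_cast this
  · exact Int.squarefree_natCast.mpr h2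

theorem REAL3_of (hP : PTS3_stmt) (hT : BT_stmt) (hB : BAR_stmt) : REAL2_stmt := by
  classical
  obtain ⟨C₀, hC₀⟩ := hB
  obtain ⟨C, hCC, hCpos⟩ : ∃ C : ℝ, C₀ ≤ C ∧ 0 ≤ C := ⟨max C₀ 0, le_max_left _ _, le_max_right _ _⟩
  obtain ⟨c₀, hc₀, ρ₀, hP⟩ := hP
  obtain ⟨gg, hh, hhh, hCN, hG⟩ := hT
  obtain ⟨Ce, hCe⟩ := hCN (1 / 3000) (by norm_num)
  obtain ⟨Ce', hCele, hCe0⟩ : ∃ C' : ℝ, Ce ≤ C' ∧ 0 ≤ C' := ⟨max Ce 0, le_max_left _ _, le_max_right _ _⟩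
  obtain ⟨Cd, hCd1, hCd⟩ := Pool.Agent.helper47.RA.card_divisors_le (1 / 2800) (by norm_num)
  obtain ⟨W, hWdef⟩ : ∃ W : ℕ → ℝ, W = fun g : ℕ => Ce' * (g : ℝ) ^ (15 * (1 / 3000) : ℝ) := ⟨_, rfl⟩
  obtain ⟨H, hHdef⟩ : ∃ H : ℕ → Finset ℕ, H = fun g : ℕ => (g ^ 14).divisors := ⟨_, rfl⟩
  have hW0 : ∀ g, 0 ≤ W g := by
    intro g
    rw [hWdef]
    positivity
  have hWH : ∃ C : ℝ, ∀ g : ℕ, 1 ≤ g → W g * (H g).card ≤ C * (g : ℝ) ^ (1 / 100 : ℝ) := by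
    refine ⟨Ce' * Cd, fun g hg => ?_⟩
    have hg0 : (0 : ℝ) < g := by exact_mod_cast hg
    have h1 := hCd (g ^ 14) (by positivity)
    have h2 : (((g ^ 14 : ℕ) : ℝ)) ^ (1 / 2800 : ℝ) = (g : ℝ) ^ (1 / 200 : ℝ) := by
      push_cast
      rw [← Real.rpow_natCast_mul hg0.le]
      congr 1
      norm_num
    rw [h2] at h1
    rw [hWdef, hHdef]
    have h3 : (g : ℝ) ^ (15 * (1 / 3000) : ℝ) * (g : ℝ) ^ (1 / 200 : ℝ) = (g : ℝ) ^ (1 / 100 : ℝ) := by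
      rw [← Real.rpow_add hg0]
      congr 1
      norm_num
    calc Ce' * (g : ℝ) ^ (15 * (1 / 3000) : ℝ) * ((g ^ 14).divisors.card : ℝ)
        ≤ Ce' * (g : ℝ) ^ (15 * (1 / 3000) : ℝ) * (Cd * (g : ℝ) ^ (1 / 200 : ℝ)) :=
          mul_le_mul_of_nonneg_left h1 (by positivity)
      _ = Ce' * Cd * ((g : ℝ) ^ (15 * (1 / 3000) : ℝ) * (g : ℝ) ^ (1 / 200 : ℝ)) := by ring
      _ = Ce' * Cd * (g : ℝ) ^ (1 / 100 : ℝ) := by rw [h3]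
  obtain ⟨Cτ, hCτ1, hCτ⟩ := OM36 (1 / 100) (by norm_num)
  obtain ⟨S, hS0, hTail⟩ := TAILW
  obtain ⟨Cw, hCw⟩ := hWH
  obtain ⟨Cw', hCwle, hCw0⟩ : ∃ C' : ℝ, Cw ≤ C' ∧ 0 ≤ C' := ⟨max Cw 0, le_max_left _ _, le_max_right _ _⟩
  -- the weights
  have hv0 : ∀ m : ℕ, (0 : ℝ) ≤ (m : ℝ) ^ (1 / 3000 : ℝ) := fun m => by positivity
  have hvb : ∀ m : ℕ, 1 ≤ m → (0 : ℝ) ≤ (m : ℝ) ^ (1 / 3000 : ℝ) ∧
      (m : ℝ) ^ (1 / 3000 : ℝ) ≤ Cτ * (m : ℝ) ^ (1 / 100 : ℝ) := by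
    intro m hm
    have hm1 : (1 : ℝ) ≤ m := by exact_mod_cast hm
    refine ⟨hv0 m, ?_⟩
    calc (m : ℝ) ^ (1 / 3000 : ℝ) ≤ (m : ℝ) ^ (1 / 100 : ℝ) :=
          Real.rpow_le_rpow_of_exponent_le hm1 (by norm_num)
      _ ≤ Cτ * (m : ℝ) ^ (1 / 100 : ℝ) := le_mul_of_one_le_left (by positivity) hCτ1
  have hwb : ∀ m : ℕ, 1 ≤ m → (0 : ℝ) ≤ W m * (H m).card ∧ W m * (H m).card ≤ Cw' * (m : ℝ) ^ (1 / 100 : ℝ) := by
    intro m hm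
    refine ⟨mul_nonneg (hW0 m) (Nat.cast_nonneg _), (hCw m hm).trans ?_⟩
    exact mul_le_mul_of_nonneg_right hCwle (by positivity)
  have hCτ0 : 0 ≤ Cτ := by linarith
  -- the choice of `ρ`
  obtain ⟨ρ1, hρ11, hρ1⟩ := LGR (1 / 100) (4 * (2 * (2 * C) * (Cτ * S) * (Cw' * S)) / c₀) (by norm_num)
  obtain ⟨ρ2, hρ21, hρ2⟩ := LGR (1 / 100) (4 * (2 * W 1 * (2 * C) * (Cτ * S)) / c₀) (by norm_num)
  obtain ⟨ρ, hρ⟩ : ∃ ρ : ℝ, ρ = |ρ₀| + ρ1 + ρ2 + 1 := ⟨_, rfl⟩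
  have hρa : ρ₀ ≤ ρ ∧ ρ1 ≤ ρ ∧ ρ2 ≤ ρ ∧ 1 < ρ := by
    have := le_abs_self ρ₀
    have := abs_nonneg ρ₀
    refine ⟨by linarith, by linarith, by linarith, by linarith⟩
  obtain ⟨hρb, hρc, hρd, hρe⟩ := hρa
  have hρpos : 0 < ρ := by linarith
  obtain ⟨N1, hN1⟩ := hP ρ hρb
  obtain ⟨T, hT⟩ : ∃ T : ℝ, T = ρ ^ (7 / 10 : ℝ) := ⟨_, rfl⟩
  obtain ⟨F1, hF1⟩ : ∃ F1 : ℝ, F1 = ρ ^ (7 / 10 : ℝ) := ⟨_, rfl⟩
  have hT1 : 1 ≤ T := by rw [hT]; exact Real.one_le_rpow hρe.le (by norm_num)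
  have hF11 : 1 ≤ F1 := by rw [hF1]; exact Real.one_le_rpow hρe.le (by norm_num)
  obtain ⟨E, hE⟩ : ∃ E : ℝ, E = 182 * (Cτ * F1) := ⟨_, rfl⟩
  have hE0 : 0 < E := by
    rw [hE]
    have : 0 < Cτ := by linarith
    positivity
  obtain ⟨w, hw⟩ : ∃ w : ℝ, w = c₀ * ρ ^ (-(2 / 3) : ℝ) := ⟨_, rfl⟩
  have hw0 : 0 < w := by rw [hw]; positivity
  obtain ⟨N₀, hN₀⟩ : ∃ N₀ : ℕ, |N1| + (2001 * F1 ^ 4) ^ 2 + 3 ≤ (N₀ : ℝ) := exists_nat_ge _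
  refine ⟨w / (4 * (F1 * E)), by positivity, N₀, fun f hf N hN => ?_⟩
  have hNN : (N₀ : ℝ) ≤ N := by exact_mod_cast hN
  have hsq0 : 0 ≤ (2001 * F1 ^ 4) ^ 2 := by positivity
  obtain ⟨x, hx⟩ : ∃ x : ℕ, N = x + 1 := by
    have : (3 : ℝ) ≤ N := by
      have := abs_nonneg N1
      linarith
    have h3 : 3 ≤ N := by exact_mod_cast this
    exact ⟨N - 1, by omega⟩
  obtain ⟨R, hR⟩ : ∃ R : ℝ, R = (x : ℝ) := ⟨_, rfl⟩
  have hNR : (N : ℝ) = R + 1 := by rw [hx, hR]; push_cast; ring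
  have hRb : N1 ≤ R ∧ (2001 * F1 ^ 4) ^ 2 ≤ R ∧ 2 ≤ R := by
    have := abs_nonneg N1
    have := le_abs_self N1
    refine ⟨?_, ?_, ?_⟩ <;> linarith
  obtain ⟨b2, b3, b7⟩ := hRb
  have hRpos : 0 < R := by linarith
  have hR1' : 1 ≤ R := by linarith
  obtain ⟨P, hPc, hPp, hPk⟩ := hN1 R b2
  have hdec : ∀ p ∈ P, ∃ d f : ℕ,
    p.D = (d : ℤ) * (f : ℤ) ^ 2 ∧ Adm d ∧ 1 ≤ d ∧ 1 ≤ f ∧ ¬ (5 : ℤ) ∣ (d : ℤ) ∧ d * f ^ 2 ≤ x ∧ 1 < (d : ℤ) ∧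
    Squarefree (d : ℤ) := by
    intro p hp
    obtain ⟨q1, q2, q3, q4, q5⟩ := hPp p hp
    refine DEC3 p q1.D0 q1.D20 x ?_
    rw [hR] at q3
    exact_mod_cast q3
  choose! d ff hdf using hdec
  have hgdv : ∀ p ∈ P, gg (ff p) p * hh (ff p) (gg (ff p) p) ∣ ff p ∧
      hh (ff p) (gg (ff p) p) ∣ (gg (ff p) p) ^ 14 ∧ (gg (ff p) p = 1 → hh (ff p) 1 = 1) ∧
      (gg (ff p) p ≠ 1 → T ≤ (gg (ff p) p : ℝ)) ∧ 0 < gg (ff p) p := by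
    intro p hp
    obtain ⟨i1, -, -, i4, -, -, -, i8⟩ := hdf p hp
    obtain ⟨j1, j2, j3, j4⟩ := hhh p (d p) (ff p) (hPp p hp).1 i8 i1
    have j5 : 0 < gg (ff p) p := by
      rcases Nat.eq_zero_or_pos (gg (ff p) p) with h | h
      · rw [h, Nat.zero_mul, zero_dvd_iff] at j1
        omega
      · exact h
    refine ⟨j1, j2, j3, fun hne => ?_, j5⟩
    obtain ⟨l, hl1, hl2, hl3⟩ := j4 hne
    have h5 : T < (l : ℝ) := by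
      by_contra hcon
      push Not at hcon
      rw [hT] at hcon
      obtain ⟨h6, h7⟩ := (hPp p hp).2.2.2.2 l hl1 hcon
      rcases hl3 with h8 | h8
      · exact h6 h8
      · exact h7 h8
    refine h5.le.trans ?_
    exact_mod_cast Nat.le_of_dvd j5 hl2
  obtain ⟨A, hA⟩ : ∃ A : Finset ℕ, A = (Finset.Icc 1 x).filter (fun n => Adm n) := ⟨_, rfl⟩
  have hAm : ∀ n ∈ A, Adm n ∧ n < N := by
    intro n hn
    rw [hA, Finset.mem_filter, Finset.mem_Icc] at hn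
    exact ⟨hn.2, by omega⟩
  have hfld : ∀ n ∈ A, ∃ (K : Type) (_ : Field K) (_ : NumberField K), Module.finrank ℚ K = 2 ∧
      (∃ x : K, x ^ 2 = ((n : ℤ) : K)) ∧
      f (n : ℤ) = Nat.card {x : ClassGroup (NumberField.RingOfIntegers K) // x ^ 5 = 1} ∧ 1 ≤ f (n : ℤ) := by
    intro n hn
    have h1 := (hAm n hn).1
    have := h1.pos
    exact FLDx f hf n (Or.inl h1.fund) (by omega)
  have ha : ∀ n ∈ A, (1 : ℝ) ≤ (f (n : ℤ) : ℝ) := by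
    intro n hn
    obtain ⟨K, iF, iN, h1, h2, h3, h4⟩ := hfld n hn
    exact_mod_cast h4
  have hSS := AVG f C hCpos (fun M => (hC₀ f hf M).trans (mul_le_mul_of_nonneg_right hCC (Nat.cast_nonneg _))) A
    (fun n hn => (hAm n hn).1)
  have hdA : ∀ p ∈ P, d p ∈ A := by
    intro p hp
    obtain ⟨i1, i2, i3, i4, i5, i6, i7, i8⟩ := hdf p hp
    rw [hA, Finset.mem_filter, Finset.mem_Icc]
    refine ⟨⟨i3, le_trans ?_ i6⟩, i2⟩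
    exact Nat.le_mul_of_pos_right _ (by positivity)
  -- the fibres
  have hfib : ∀ d0 f0 g0 : ℕ, ∀ p ∈ P.filter (fun p => d p = d0 ∧ ff p = f0 ∧ gg (ff p) p = g0),
      p ∈ P ∧ d p = d0 ∧ ff p = f0 ∧ gg (ff p) p = g0 ∧ IsPt2 p ∧ p.D = (d0 : ℤ) * (f0 : ℤ) ^ 2 ∧ |p.n.norm| ≤ p.D ∧
        (p.D : ℝ) ≤ R := by
    intro d0 f0 g0 p hp
    rw [Finset.mem_filter] at hp
    obtain ⟨h1, h2, h3, h4⟩ := hp
    obtain ⟨q1, q2, q3, q4, q5⟩ := hPp p h1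
    obtain ⟨i1, -⟩ := hdf p h1
    rw [h2, h3] at i1
    exact ⟨h1, h2, h3, h4, q1, i1, q4, q3⟩
  have key : ∀ d0 ∈ A, ∀ f0 g0 : ℕ, ((P.filter (fun p => d p = d0 ∧ ff p = f0 ∧ gg (ff p) p = g0)).card : ℝ) ≤
      W g0 * ((f0 / (g0 * hh f0 g0) : ℕ) : ℝ) ^ (1 / 3000 : ℝ) * (f (d0 : ℤ) : ℝ) * (1 + (hh f0 g0 : ℝ) ^ 2) ∧
      (g0 = 1 → ((P.filter (fun p => d p = d0 ∧ ff p = f0 ∧ gg (ff p) p = g0)).card : ℝ) ≤
        2 * W 1 * (f0 : ℝ) ^ (1 / 3000 : ℝ) * (f (d0 : ℤ) : ℝ)) ∧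
      (g0 = 1 → (f0 : ℝ) ≤ F1 → ((P.filter (fun p => d p = d0 ∧ ff p = f0 ∧ gg (ff p) p = g0)).card : ℝ) ≤
        E * ((f (d0 : ℤ) : ℝ) - 1)) := by
    intro d0 hd0 f0 g0
    have ha0 := ha d0 hd0
    have hWg := hW0 g0
    have hW1 := hW0 1
    rcases (P.filter (fun p => d p = d0 ∧ ff p = f0 ∧ gg (ff p) p = g0)).eq_empty_or_nonempty with hem | ⟨p0, hp0⟩
    · rw [hem, Finset.card_empty, Nat.cast_zero]
      exact ⟨by positivity, fun _ => by positivity, fun _ _ => mul_nonneg hE0.le (by linarith)⟩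
    obtain ⟨r1, r2, r3, r4, r5, r6, r7, r8⟩ := hfib d0 f0 g0 p0 hp0
    have r9 := (hPp p0 r1).2.1
    obtain ⟨i1, i2, i3, i4, i5, i6, i7, i8⟩ := hdf p0 r1
    obtain ⟨j1, j2, j3, j4, j5⟩ := hgdv p0 r1
    rw [r2] at i2 i3 i5 i7 i8
    rw [r4] at j1 j2 j5
    rw [r3] at i4 j1 j2 j3
    obtain ⟨K, iF, iN, h1, h2, h3, h4⟩ := hfld d0 hd0
    have h36' : (1 : ℝ) ≤ (36 : ℝ) ^ f0.primeFactors.card := one_le_pow₀ (by norm_num)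
    have c1 := hCe (d0 : ℤ) f0 g0 i7 i8 i5 K h1 h2
      (P.filter (fun p => d p = d0 ∧ ff p = f0 ∧ gg (ff p) p = g0))
      (fun p hp => by
        obtain ⟨s1, s2, s3, s4, s5, s6, s7, s8⟩ := hfib d0 f0 g0 p hp
        rw [s3] at s4
        exact ⟨s5, s6, s4, s7⟩)
      (fun p hp q hq => hPk p (hfib d0 f0 g0 p hp).1 q (hfib d0 f0 g0 q hq).1)
    rw [← h3] at c1
    have c2 : ((P.filter (fun p => d p = d0 ∧ ff p = f0 ∧ gg (ff p) p = g0)).card : ℝ) ≤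
        Ce' * (f0 : ℝ) ^ (1 / 3000 : ℝ) * ((f (d0 : ℤ) : ℝ) * (1 + (hh f0 g0 : ℝ) ^ 2)) := by
      refine c1.trans ?_
      have : (0 : ℝ) ≤ (f (d0 : ℤ) : ℝ) * (1 + (hh f0 g0 : ℝ) ^ 2) := by positivity
      exact mul_le_mul_of_nonneg_right (mul_le_mul_of_nonneg_right hCele (by positivity)) this
    refine ⟨?_, fun hg0 => ?_, fun hg0 hfT => ?_⟩
    · obtain ⟨m, hm⟩ := j1
      have hh0 : 0 < hh f0 g0 := by
        rcases Nat.eq_zero_or_pos (hh f0 g0) with h | h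
        · rw [h] at hm
          simp at hm
          omega
        · exact h
      have hgh0 : 0 < g0 * hh f0 g0 := Nat.mul_pos j5 hh0
      have hdm : f0 / (g0 * hh f0 g0) = m := Nat.div_eq_of_eq_mul_right hgh0 hm
      rw [hdm]
      have hf0le : f0 ≤ g0 ^ 15 * m := by
        have h5 : hh f0 g0 ≤ g0 ^ 14 := Nat.le_of_dvd (by positivity) j2
        calc f0 = g0 * hh f0 g0 * m := hm
          _ ≤ g0 * g0 ^ 14 * m := Nat.mul_le_mul_right _ (Nat.mul_le_mul_left _ h5)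
          _ = g0 ^ 15 * m := by ring
      have hpow : (f0 : ℝ) ^ (1 / 3000 : ℝ) ≤ (g0 : ℝ) ^ (15 * (1 / 3000) : ℝ) * (m : ℝ) ^ (1 / 3000 : ℝ) := by
        have h6 : (f0 : ℝ) ≤ (g0 : ℝ) ^ 15 * m := by exact_mod_cast hf0le
        calc (f0 : ℝ) ^ (1 / 3000 : ℝ) ≤ ((g0 : ℝ) ^ 15 * m) ^ (1 / 3000 : ℝ) :=
              Real.rpow_le_rpow (by positivity) h6 (by norm_num)
          _ = ((g0 : ℝ) ^ 15) ^ (1 / 3000 : ℝ) * (m : ℝ) ^ (1 / 3000 : ℝ) :=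
              Real.mul_rpow (by positivity) (by positivity)
          _ = (g0 : ℝ) ^ (15 * (1 / 3000) : ℝ) * (m : ℝ) ^ (1 / 3000 : ℝ) := by
              rw [← Real.rpow_natCast_mul (by positivity)]
              norm_num
      refine c2.trans ?_
      rw [hWdef]
      have h7 : (0 : ℝ) ≤ (f (d0 : ℤ) : ℝ) * (1 + (hh f0 g0 : ℝ) ^ 2) := by positivity
      calc Ce' * (f0 : ℝ) ^ (1 / 3000 : ℝ) * ((f (d0 : ℤ) : ℝ) * (1 + (hh f0 g0 : ℝ) ^ 2))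
          ≤ Ce' * ((g0 : ℝ) ^ (15 * (1 / 3000) : ℝ) * (m : ℝ) ^ (1 / 3000 : ℝ)) *
            ((f (d0 : ℤ) : ℝ) * (1 + (hh f0 g0 : ℝ) ^ 2)) :=
            mul_le_mul_of_nonneg_right (mul_le_mul_of_nonneg_left hpow hCe0) h7
        _ = _ := by ring
    · subst hg0
      have k7 : hh f0 1 = 1 := j3 (by rw [← r3]; exact r4)
      rw [k7] at c2
      refine c2.trans (le_of_eq ?_)
      rw [hWdef]
      simp only [Nat.cast_one, Real.one_rpow]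
      ring
    · subst hg0
      have hf0pos : (0 : ℝ) < f0 := by exact_mod_cast i4
      have t1 : (f0 : ℝ) ^ 4 ≤ F1 ^ 4 := pow_le_pow_left₀ hf0pos.le hfT 4
      have t2 : 2001 * F1 ^ 4 ≤ √R := Real.le_sqrt_of_sq_le b3
      have t3 : √R ≤ (d0 : ℝ) * (f0 : ℝ) ^ 2 := by
        refine r9.trans (le_of_eq ?_)
        rw [r6]
        push_cast
        ring
      have t4 : 2001 * (f0 : ℝ) ^ 2 ≤ d0 := by
        have t5 : 2001 * (f0 : ℝ) ^ 2 * (f0 : ℝ) ^ 2 ≤ d0 * (f0 : ℝ) ^ 2 := by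
          calc 2001 * (f0 : ℝ) ^ 2 * (f0 : ℝ) ^ 2 = 2001 * (f0 : ℝ) ^ 4 := by ring
            _ ≤ 2001 * F1 ^ 4 := mul_le_mul_of_nonneg_left t1 (by norm_num)
            _ ≤ √R := t2
            _ ≤ _ := t3
        exact le_of_mul_le_mul_right t5 (by positivity)
      have t6 : 2000 * (f0 : ℤ) ^ 2 < (d0 : ℤ) := by
        have t7 : 2000 * (f0 : ℝ) ^ 2 < (d0 : ℝ) := by
          have : (0 : ℝ) < (f0 : ℝ) ^ 2 := by positivity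
          linarith
        exact_mod_cast t7
      have c3 := hG (d0 : ℤ) f0 i7 i8 i5 t6 K h1 h2
        (P.filter (fun p => d p = d0 ∧ ff p = f0 ∧ gg (ff p) p = 1))
        (fun p hp => by
          obtain ⟨s1, s2, s3, s4, s5, s6, s7, s8⟩ := hfib d0 f0 1 p hp
          rw [s3] at s4
          exact ⟨s5, s6, s4, s7⟩)
        (fun p hp q hq => hPk p (hfib d0 f0 1 p hp).1 q (hfib d0 f0 1 q hq).1)
      rw [← h3] at c3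
      refine c3.trans ?_
      rw [hE]
      have ha1 : 0 ≤ (f (d0 : ℤ) : ℝ) - 1 := by linarith
      have t8 : (36 : ℝ) ^ f0.primeFactors.card ≤ Cτ * F1 := by
        refine (hCτ f0 (by omega)).trans (mul_le_mul_of_nonneg_left ?_ hCτ0)
        have t9 : (1 : ℝ) ≤ f0 := by exact_mod_cast i4
        calc (f0 : ℝ) ^ (1 / 100 : ℝ) ≤ (f0 : ℝ) ^ (1 : ℝ) :=
              Real.rpow_le_rpow_of_exponent_le t9 (by norm_num)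
          _ = f0 := Real.rpow_one _
          _ ≤ F1 := hfT
      calc ((f (d0 : ℤ) : ℝ) - 1) * (1 + 181 * (36 : ℝ) ^ f0.primeFactors.card)
          ≤ ((f (d0 : ℤ) : ℝ) - 1) * (182 * (Cτ * F1)) := by
            refine mul_le_mul_of_nonneg_left ?_ ha1
            linarith
        _ = 182 * (Cτ * F1) * ((f (d0 : ℤ) : ℝ) - 1) := by ring
  -- the summation
  have main := SUMA2 P d ff (fun p => gg (ff p) p) hh H W (fun m => (m : ℝ) ^ (1 / 3000 : ℝ))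
    (fun n => (f (n : ℤ) : ℝ)) A x
    (2 * C) E T F1 (Cτ * S) (Cw' * S * T ^ (-(98 / 100) : ℝ)) (Cτ * S * F1 ^ (-(98 / 100) : ℝ))
    (by positivity) hE0.le hF11 ha hSS hdA
    (fun p hp => (hdf p hp).2.2.1) (fun p hp => (hdf p hp).2.2.2.1) (fun p hp => (hdf p hp).2.2.2.2.2.1)
    (fun p hp => (hgdv p hp).2.2.2.1)
    (fun p hp => (hgdv p hp).1)
    (fun p hp => by
      show hh (ff p) (gg (ff p) p) ∈ H (gg (ff p) p)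
      rw [hHdef]
      have h5 := (hgdv p hp).2.2.2.2
      exact Nat.mem_divisors.mpr ⟨(hgdv p hp).2.1, by positivity⟩)
    hv0 hW0
    (by
      have h1 := hTail Cτ (fun m => (m : ℝ) ^ (1 / 3000 : ℝ)) 1 x hCτ0 hvb le_rfl
      have h2 : (Icc 1 x).filter (fun g : ℕ => (1 : ℝ) ≤ (g : ℝ)) = Icc 1 x := by
        refine Finset.filter_true_of_mem fun g hg => ?_
        rw [Finset.mem_Icc] at hg
        exact_mod_cast hg.1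
      rw [h2, Real.one_rpow, mul_one] at h1
      exact h1)
    (hTail Cτ (fun m => (m : ℝ) ^ (1 / 3000 : ℝ)) F1 x hCτ0 hvb hF11)
    (hTail Cw' (fun m => W m * (H m).card) T x hCw0 hwb hT1)
    (fun d0 hd0 f0 g0 _ => (key d0 hd0 f0 g0).1)
    (fun d0 hd0 f0 => (key d0 hd0 f0 1).2.1 rfl)
    (fun d0 hd0 f0 hf0 => (key d0 hd0 f0 1).2.2 rfl hf0)
  rw [← hR] at main
  obtain ⟨SA, hSA⟩ : ∃ SA : ℝ, SA = ∑ n ∈ A, ((f (n : ℤ) : ℝ) - 1) := ⟨_, rfl⟩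
  rw [← hSA] at main
  have hSAle : SA ≤ ∑ D ∈ FDs N, ((f D : ℝ) - 1) := by
    rw [hSA]
    refine SZN A N (fun D => (f D : ℝ) - 1) hAm fun D hD => ?_
    rw [mem_FDs] at hD
    obtain ⟨K, iF, iN, h1, h2, h3, h4⟩ := FLDx f hf D hD.2 hD.1.1
    have : (1 : ℝ) ≤ (f D : ℝ) := by exact_mod_cast h4
    show 0 ≤ (f D : ℝ) - 1
    linarith
  have hTw : T ^ (-(98 / 100) : ℝ) ≤ ρ ^ (-(1 / 100) : ℝ) * ρ ^ (-(2 / 3) : ℝ) := by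
    rw [hT, ← Real.rpow_mul hρpos.le, ← Real.rpow_add hρpos]
    exact Real.rpow_le_rpow_of_exponent_le hρe.le (by norm_num)
  have hFw : F1 ^ (-(98 / 100) : ℝ) ≤ ρ ^ (-(1 / 100) : ℝ) * ρ ^ (-(2 / 3) : ℝ) := by
    rw [hF1, ← Real.rpow_mul hρpos.le, ← Real.rpow_add hρpos]
    exact Real.rpow_le_rpow_of_exponent_le hρe.le (by norm_num)
  have hinv : ρ ^ (-(1 / 100) : ℝ) * ρ ^ (1 / 100 : ℝ) = 1 := by
    rw [← Real.rpow_add hρpos]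
    norm_num
  have hneg0 : 0 ≤ ρ ^ (-(1 / 100) : ℝ) := by positivity
  have hgen : ∀ Z : ℝ, 4 * Z / c₀ ≤ ρ ^ (1 / 100 : ℝ) → 0 ≤ Z →
      Z * (ρ ^ (-(1 / 100) : ℝ) * ρ ^ (-(2 / 3) : ℝ)) ≤ w / 4 := by
    intro Z hZ hZ0
    have h1 : 4 * Z ≤ ρ ^ (1 / 100 : ℝ) * c₀ := (div_le_iff₀ hc₀).mp hZ
    have h2 : 4 * Z * ρ ^ (-(1 / 100) : ℝ) ≤ c₀ := by
      calc 4 * Z * ρ ^ (-(1 / 100) : ℝ) ≤ ρ ^ (1 / 100 : ℝ) * c₀ * ρ ^ (-(1 / 100) : ℝ) :=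
            mul_le_mul_of_nonneg_right h1 hneg0
        _ = (ρ ^ (-(1 / 100) : ℝ) * ρ ^ (1 / 100 : ℝ)) * c₀ := by ring
        _ = c₀ := by rw [hinv, one_mul]
    have h3 : 0 ≤ ρ ^ (-(2 / 3) : ℝ) := by positivity
    have h4 := mul_le_mul_of_nonneg_right h2 h3
    rw [hw]
    linarith
  have m1 : 2 * (2 * C) * (Cτ * S) * (Cw' * S * T ^ (-(98 / 100) : ℝ)) * R ≤ w / 4 * R := by
    refine mul_le_mul_of_nonneg_right ?_ hRpos.le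
    calc 2 * (2 * C) * (Cτ * S) * (Cw' * S * T ^ (-(98 / 100) : ℝ))
        = (2 * (2 * C) * (Cτ * S) * (Cw' * S)) * T ^ (-(98 / 100) : ℝ) := by ring
      _ ≤ (2 * (2 * C) * (Cτ * S) * (Cw' * S)) * (ρ ^ (-(1 / 100) : ℝ) * ρ ^ (-(2 / 3) : ℝ)) :=
          mul_le_mul_of_nonneg_left hTw (by positivity)
      _ ≤ w / 4 := hgen _ (hρ1 ρ hρc) (by positivity)
  have hW1 := hW0 1
  have m2 : 2 * W 1 * (2 * C) * (Cτ * S * F1 ^ (-(98 / 100) : ℝ)) * R ≤ w / 4 * R := by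
    refine mul_le_mul_of_nonneg_right ?_ hRpos.le
    calc 2 * W 1 * (2 * C) * (Cτ * S * F1 ^ (-(98 / 100) : ℝ))
        = (2 * W 1 * (2 * C) * (Cτ * S)) * F1 ^ (-(98 / 100) : ℝ) := by ring
      _ ≤ (2 * W 1 * (2 * C) * (Cτ * S)) * (ρ ^ (-(1 / 100) : ℝ) * ρ ^ (-(2 / 3) : ℝ)) :=
          mul_le_mul_of_nonneg_left hFw (by positivity)
      _ ≤ w / 4 := hgen _ (hρ2 ρ hρd) (by positivity)
  rw [← hw] at hPc
  have m3 : w / 2 * R ≤ F1 * E * SA := by linarith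
  show w / (4 * (F1 * E)) * (N : ℝ) ≤ ∑ D ∈ FDs N, ((f D : ℝ) - 1)
  refine le_trans ?_ hSAle
  have hFE : 0 < F1 * E := by positivity
  have h1 : w / (4 * (F1 * E)) * (N : ℝ) ≤ w / (4 * (F1 * E)) * (2 * R) :=
    mul_le_mul_of_nonneg_left (by rw [hNR]; linarith) (by positivity)
  refine h1.trans ?_
  have h2 : w / (4 * (F1 * E)) * (2 * R) = w / 2 * R / (F1 * E) := by
    field_simp
    ring
  rw [h2, div_le_iff₀ hFE]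
  linarith

end Pool.Agent.RF
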