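import Pool.Agent.helper13.RF.AllU
import Pool.Agent.helper13.RF.UMF
import Pool.Agent.helper67.RF.UZB

/-!
# Project RF (MP_16912e_nt), stage 2: block B' without hypotheses
-/

set_option autoImplicit false

namespace Pool.Agent.RF

theorem BT_six : BT_stmt := BT_all

end Pool.Agent.RF
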