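import Pool.Agent.helper6.RF.SUM2

set_option autoImplicit false

/-!
# RF (MP_16912e_nt), stage 2, final sums: the exact order of magnitude
-/

namespace Pool.Agent.RF

open Finset NumberField

/-- OUTPUT OF BLOCK C' (stage 2): the points at the critical scale -/
def PTS2_stmt : Prop :=
  ∃ c₀ : ℝ, 0 < c₀ ∧ ∃ ρ₀ : ℝ, ∀ ρ : ℝ, ρ₀ ≤ ρ → ∃ N₀ : ℝ, ∀ N : ℝ, N₀ ≤ N → ∃ P : Finset Pt,
    c₀ * ρ ^ (-(2 / 3) : ℝ) * N ≤ (P.card : ℝ) ∧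
    (∀ p ∈ P, IsPt p ∧ √N ≤ (p.D : ℝ) ∧ (p.D : ℝ) ≤ N ∧ |p.n.norm| ≤ p.D ∧
      ∀ l : ℕ, l.Prime → (l : OO) ∣ p.n → ρ ^ (7 / 10 : ℝ) < (l : ℝ)) ∧
    (∀ p ∈ P, ∀ q ∈ P, p.k ∣ q.k → q.k ∣ p.k → p.k = q.k)

/-- OUTPUT 1 OF BLOCK B' (stage 2): no `N` in the bound -/
def CNT2_stmt : Prop := ∃ (W : ℕ → ℝ) (H : ℕ → Finset ℕ) (hh : ℕ → ℕ → ℕ),
  (∀ g, 0 ≤ W g) ∧ (∀ e : ℝ, 0 < e → ∃ C : ℝ, ∀ g : ℕ, 1 ≤ g → W g * (H g).card ≤ C * (g : ℝ) ^ e) ∧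
  H 1 = {1} ∧ (∀ f g : ℕ, 0 < f → g ∣ f → g * hh f g ∣ f ∧ hh f g ∈ H g) ∧
  ∀ (D₀ : ℤ) (f g : ℕ), 1 < D₀ → Squarefree D₀ → ¬ (5 : ℤ) ∣ D₀ →
  ∀ (K : Type) [Field K] [NumberField K], Module.finrank ℚ K = 2 → (∃ x : K, x ^ 2 = D₀) → ∀ S : Finset Pt,
  (∀ p ∈ S, IsPt p ∧ p.D = D₀ * (f : ℤ) ^ 2 ∧ ct p = g ∧ |p.n.norm| ≤ p.D) →
  (∀ p ∈ S, ∀ q ∈ S, p.k ∣ q.k → q.k ∣ p.k → p.k = q.k) →
  (S.card : ℝ) ≤ W g * 36 ^ (f / (g * hh f g)).primeFactors.card *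
    ((Nat.card {c : ClassGroup (𝓞 K) // c ^ 5 = 1} : ℝ) * (1 + (hh f g : ℝ) ^ 2))

/-- OUTPUT 2 OF BLOCK B' (stage 2): `CNG` with the weaker hypothesis on `k` -/
def CNG2_stmt : Prop := ∀ (D₀ : ℤ) (f : ℕ), 1 < D₀ → Squarefree D₀ → ¬ (5 : ℤ) ∣ D₀ → 2000 * (f : ℤ) ^ 2 < D₀ →
  ∀ (K : Type) [Field K] [NumberField K], Module.finrank ℚ K = 2 → (∃ x : K, x ^ 2 = D₀) → ∀ S : Finset Pt,
  (∀ p ∈ S, IsPt p ∧ p.D = D₀ * (f : ℤ) ^ 2 ∧ ct p = 1 ∧ |p.n.norm| ≤ p.D) →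
  (∀ p ∈ S, ∀ q ∈ S, p.k ∣ q.k → q.k ∣ p.k → p.k = q.k) →
  (S.card : ℝ) ≤ ((Nat.card {c : ClassGroup (𝓞 K) // c ^ 5 = 1} : ℝ) - 1) * (1 + 181 * 36 ^ f.primeFactors.card)

open Classical in
/-- REAL2: the total number of nontrivial classes of order 5 of the real quadratic fields of discriminant
`< N` is at least `r N` -/
def REAL2_stmt : Prop :=
    ∃ r : ℝ, 0 < r ∧ ∃ N₀ : ℕ, ∀ f : ℤ → ℕ,
      (∀ (K : Type) [Field K] [NumberField K], Module.finrank ℚ K = 2 →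
        f (NumberField.discr K) =
          Nat.card {x : ClassGroup (NumberField.RingOfIntegers K) // x ^ 5 = 1}) →
      ∀ N : ℕ, N₀ ≤ N →
        r * N ≤
          ∑ D ∈ (Finset.Ioo (0 : ℤ) (N : ℤ)).filter (fun D : ℤ =>
              (D % 4 = 1 ∧ D ≠ 1 ∧ Squarefree D) ∨
              (∃ m : ℤ, D = 4 * m ∧ (m % 4 = 2 ∨ m % 4 = 3) ∧ Squarefree m)),
            ((f D : ℝ) - 1)

/-- the abstract summation of stage 2 -/
theorem SUMA2 {ι : Type} (P : Finset ι) (d f g : ι → ℕ) (hf : ℕ → ℕ → ℕ) (H : ℕ → Finset ℕ) (W : ℕ → ℝ)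
    (v : ℕ → ℝ) (a : ℕ → ℝ) (A : Finset ℕ)
    (x : ℕ) (C E T F1 V Vg VF : ℝ) (hC : 0 ≤ C) (hE : 0 ≤ E) (hF : 1 ≤ F1)
    (ha : ∀ n ∈ A, 1 ≤ a n)
    (hS : ∀ y : ℝ, 0 ≤ y → ∑ n ∈ A.filter (fun n : ℕ => (n : ℝ) ≤ y), a n ≤ C * y)
    (hdA : ∀ p ∈ P, d p ∈ A) (hd : ∀ p ∈ P, 1 ≤ d p) (hf1 : ∀ p ∈ P, 1 ≤ f p)
    (hx : ∀ p ∈ P, d p * f p ^ 2 ≤ x)
    (hg1 : ∀ p ∈ P, g p ≠ 1 → T ≤ (g p : ℝ))
    (hgh : ∀ p ∈ P, g p * hf (f p) (g p) ∣ f p)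
    (hhg : ∀ p ∈ P, hf (f p) (g p) ∈ H (g p))
    (hv : ∀ m, 0 ≤ v m) (hW : ∀ m, 0 ≤ W m)
    (hV : ∑ m ∈ Icc 1 x, v m * ((m : ℝ) ^ 2)⁻¹ ≤ V)
    (hVF : ∑ m ∈ (Icc 1 x).filter (fun g : ℕ => F1 ≤ (g : ℝ)), v m * ((m : ℝ) ^ 2)⁻¹ ≤ VF)
    (hVg : ∑ m ∈ (Icc 1 x).filter (fun g : ℕ => T ≤ (g : ℝ)), (W m * (H m).card) * ((m : ℝ) ^ 2)⁻¹ ≤ Vg)
    (hc : ∀ d0 ∈ A, ∀ f0 g0 : ℕ, g0 ≠ 1 → ((P.filter (fun p => d p = d0 ∧ f p = f0 ∧ g p = g0)).card : ℝ) ≤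
      W g0 * v (f0 / (g0 * hf f0 g0)) * a d0 * (1 + (hf f0 g0 : ℝ) ^ 2))
    (hc1 : ∀ d0 ∈ A, ∀ f0 : ℕ, ((P.filter (fun p => d p = d0 ∧ f p = f0 ∧ g p = 1)).card : ℝ) ≤
      2 * W 1 * v f0 * a d0)
    (hc0 : ∀ d0 ∈ A, ∀ f0 : ℕ, (f0 : ℝ) ≤ F1 →
      ((P.filter (fun p => d p = d0 ∧ f p = f0 ∧ g p = 1)).card : ℝ) ≤ E * (a d0 - 1)) :
    (P.card : ℝ) ≤ 2 * C * V * Vg * x + 2 * W 1 * C * VF * x + F1 * E * ∑ n ∈ A, (a n - 1) := by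
  classical
  have hfx : ∀ p ∈ P, f p ≤ x := by
    intro p hp
    have h1 := hx p hp
    have h2 := hd p hp
    have h4 : f p ≤ f p ^ 2 := Nat.le_self_pow (by norm_num) _
    calc f p ≤ f p ^ 2 := h4
      _ ≤ d p * f p ^ 2 := Nat.le_mul_of_pos_left _ h2
      _ ≤ x := h1
  have hgpos : ∀ p ∈ P, 1 ≤ g p := by
    intro p hp
    have h1 := hgh p hp
    have h2 := hf1 p hp
    rcases Nat.eq_zero_or_pos (g p) with h | h
    · rw [h, Nat.zero_mul, zero_dvd_iff] at h1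
      omega
    · exact h
  have hV0 : 0 ≤ V := le_trans (Finset.sum_nonneg fun m _ => mul_nonneg (hv m) (by positivity)) hV
  -- bad points
  have b1 : ((P.filter (fun p => g p ≠ 1)).card : ℝ) ≤ 2 * C * V * Vg * x := by
    have b2 : ((P.filter (fun p => g p ≠ 1)).card : ℝ) ≤
        ∑ g0 ∈ (Icc 1 x).filter (fun g : ℕ => T ≤ (g : ℝ)), 2 * C * V * x * ((W g0 * (H g0).card) * ((g0 : ℝ) ^ 2)⁻¹) := by
      refine card_fib _ g _ _ ?_ ?_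
      · intro p hp
        rw [Finset.mem_filter] at hp
        rw [Finset.mem_filter, Finset.mem_Icc]
        refine ⟨⟨hgpos p hp.1, ?_⟩, hg1 p hp.1 hp.2⟩
        exact (Nat.le_of_dvd (hf1 p hp.1) ((Dvd.intro _ rfl).trans (hgh p hp.1))).trans (hfx p hp.1)
      · intro g0 hg0
        rw [Finset.mem_filter, Finset.mem_Icc] at hg0
        rcases ((P.filter (fun p => g p ≠ 1)).filter (fun p => g p = g0)).eq_empty_or_nonempty with he | ⟨p0, hp0⟩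
        · rw [he, Finset.card_empty, Nat.cast_zero]
          have := hW g0
          positivity
        · have hq : ∀ p ∈ (P.filter (fun p => g p ≠ 1)).filter (fun p => g p = g0), p ∈ P ∧ g p ≠ 1 ∧ g p = g0 := by
            intro p hp
            rw [Finset.mem_filter, Finset.mem_filter] at hp
            exact ⟨hp.1.1, hp.1.2, hp.2⟩
          obtain ⟨i1, i2, i3⟩ := hq p0 hp0
          have key := SUMB2 _ d f (fun f0 => hf f0 g0) (H g0) v a A x g0 C (W g0) V hC (hW g0) hg0.1.1 ha hS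
            (fun p hp => hdA p (hq p hp).1) (fun p hp => hd p (hq p hp).1) (fun p hp => hf1 p (hq p hp).1)
            (fun p hp => hx p (hq p hp).1)
            (fun p hp => by
              have := hgh p (hq p hp).1
              rwa [(hq p hp).2.2] at this)
            (fun p hp => by
              have := hhg p (hq p hp).1
              rwa [(hq p hp).2.2] at this) hv hV
            (fun d0 hd0 f0 => by
              refine le_trans ?_ (hc d0 hd0 f0 g0 (by rw [← i3]; exact i2))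
              have h6 : ((P.filter (fun p => g p ≠ 1)).filter (fun p => g p = g0)).filter
                  (fun p => d p = d0 ∧ f p = f0) ⊆ P.filter (fun p => d p = d0 ∧ f p = f0 ∧ g p = g0) := by
                intro q hq'
                rw [Finset.mem_filter] at hq'
                have := hq q hq'.1
                rw [Finset.mem_filter]
                exact ⟨this.1, hq'.2.1, hq'.2.2, this.2.2⟩
              exact_mod_cast Finset.card_le_card h6)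
          refine key.trans (le_of_eq ?_)
          ring
    refine b2.trans ?_
    rw [← Finset.mul_sum]
    calc 2 * C * V * x * ∑ g0 ∈ (Icc 1 x).filter (fun g : ℕ => T ≤ (g : ℝ)), (W g0 * (H g0).card) * ((g0 : ℝ) ^ 2)⁻¹
        ≤ 2 * C * V * x * Vg := mul_le_mul_of_nonneg_left hVg (by positivity)
      _ = 2 * C * V * Vg * x := by ring
  -- good points
  have b3 : ((P.filter (fun p => g p = 1 ∧ F1 ≤ (f p : ℝ))).card : ℝ) ≤ 2 * W 1 * C * VF * x := by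
    refine SUMG2 _ d f v a A x C (2 * W 1) F1 VF hC (mul_nonneg (by norm_num) (hW 1)) hF hS ?_ ?_ ?_ ?_ hv hVF ?_
    · intro p hp
      exact hdA p (Finset.mem_filter.mp hp).1
    · intro p hp
      exact hd p (Finset.mem_filter.mp hp).1
    · intro p hp
      exact (Finset.mem_filter.mp hp).2.2
    · intro p hp
      exact hx p (Finset.mem_filter.mp hp).1
    · intro d0 hd0 f0
      refine le_trans ?_ (hc1 d0 hd0 f0)
      have h6 : (P.filter (fun p => g p = 1 ∧ F1 ≤ (f p : ℝ))).filter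
          (fun p => d p = d0 ∧ f p = f0) ⊆ P.filter (fun p => d p = d0 ∧ f p = f0 ∧ g p = 1) := by
        intro q hq'
        rw [Finset.mem_filter, Finset.mem_filter] at hq'
        rw [Finset.mem_filter]
        exact ⟨hq'.1.1, hq'.2.1, hq'.2.2, hq'.1.2.1⟩
      exact_mod_cast Finset.card_le_card h6
  have b4 : ((P.filter (fun p => g p = 1 ∧ ¬ F1 ≤ (f p : ℝ))).card : ℝ) ≤ F1 * E * ∑ n ∈ A, (a n - 1) := by
    refine SUMS _ d f a A E F1 hE hF ha ?_ ?_ ?_ ?_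
    · intro p hp
      exact hdA p (Finset.mem_filter.mp hp).1
    · intro p hp
      exact hf1 p (Finset.mem_filter.mp hp).1
    · intro p hp
      exact (not_le.mp (Finset.mem_filter.mp hp).2.2).le
    · intro d0 hd0 f0 hf0
      refine le_trans ?_ (hc0 d0 hd0 f0 hf0)
      have h6 : (P.filter (fun p => g p = 1 ∧ ¬ F1 ≤ (f p : ℝ))).filter
          (fun p => d p = d0 ∧ f p = f0) ⊆ P.filter (fun p => d p = d0 ∧ f p = f0 ∧ g p = 1) := by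
        intro q hq'
        rw [Finset.mem_filter, Finset.mem_filter] at hq'
        rw [Finset.mem_filter]
        exact ⟨hq'.1.1, hq'.2.1, hq'.2.2, hq'.1.2.1⟩
      exact_mod_cast Finset.card_le_card h6
  have b5 : P.card ≤ (P.filter (fun p => g p ≠ 1)).card + ((P.filter (fun p => g p = 1 ∧ F1 ≤ (f p : ℝ))).card +
      (P.filter (fun p => g p = 1 ∧ ¬ F1 ≤ (f p : ℝ))).card) := by
    refine le_trans (Finset.card_le_card ?_) ((Finset.card_union_le _ _).trans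
      (Nat.add_le_add_left (Finset.card_union_le _ _) _))
    intro p hp
    rw [Finset.mem_union, Finset.mem_union, Finset.mem_filter, Finset.mem_filter, Finset.mem_filter]
    by_cases h1 : g p = 1
    · by_cases h2 : F1 ≤ (f p : ℝ)
      · exact Or.inr (Or.inl ⟨hp, h1, h2⟩)
      · exact Or.inr (Or.inr ⟨hp, h1, h2⟩)
    · exact Or.inl ⟨hp, h1⟩
  have b6 : (P.card : ℝ) ≤ ((P.filter (fun p => g p ≠ 1)).card : ℝ) +
      (((P.filter (fun p => g p = 1 ∧ F1 ≤ (f p : ℝ))).card : ℝ) +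
      ((P.filter (fun p => g p = 1 ∧ ¬ F1 ≤ (f p : ℝ))).card : ℝ)) := by exact_mod_cast b5
  linarith

theorem REAL2_of (hP : PTS2_stmt) (hC : CNT2_stmt) (hG : CNG2_stmt) (hV : GDV_stmt) (hB : BAR_stmt) :
    REAL2_stmt := by
  classical
  obtain ⟨C₀, hC₀⟩ := hB
  obtain ⟨C, hCC, hCpos⟩ : ∃ C : ℝ, C₀ ≤ C ∧ 0 ≤ C := ⟨max C₀ 0, le_max_left _ _, le_max_right _ _⟩
  obtain ⟨c₀, hc₀, ρ₀, hP⟩ := hP
  obtain ⟨W, H, hh, hW0, hWH, hH1, hhh, hC⟩ := hC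
  obtain ⟨Cτ, hCτ1, hCτ⟩ := OM36 (1 / 100) (by norm_num)
  obtain ⟨S, hS0, hTail⟩ := TAILW
  obtain ⟨Cw, hCw⟩ := hWH (1 / 100) (by norm_num)
  obtain ⟨Cw', hCwle, hCw0⟩ : ∃ C' : ℝ, Cw ≤ C' ∧ 0 ≤ C' := ⟨max Cw 0, le_max_left _ _, le_max_right _ _⟩
  -- the weights
  have hv0 : ∀ m : ℕ, (0 : ℝ) ≤ (36 : ℝ) ^ m.primeFactors.card := fun m => by positivity
  have hvb : ∀ m : ℕ, 1 ≤ m → (0 : ℝ) ≤ (36 : ℝ) ^ m.primeFactors.card ∧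
      (36 : ℝ) ^ m.primeFactors.card ≤ Cτ * (m : ℝ) ^ (1 / 100 : ℝ) := fun m hm => ⟨hv0 m, hCτ m hm⟩
  have hwb : ∀ m : ℕ, 1 ≤ m → (0 : ℝ) ≤ W m * (H m).card ∧ W m * (H m).card ≤ Cw' * (m : ℝ) ^ (1 / 100 : ℝ) := by
    intro m hm
    refine ⟨mul_nonneg (hW0 m) (Nat.cast_nonneg _), (hCw m hm).trans ?_⟩
    exact mul_le_mul_of_nonneg_right hCwle (by positivity)
  have hCτ0 : 0 ≤ Cτ := by linarith
  -- the choice of `ρ`
  obtain ⟨ρ1, hρ11, hρ1⟩ := LGR (1 / 100) (4 * (2 * (2 * C) * (Cτ * S) * (Cw' * S)) / c₀) (by norm_num)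
  obtain ⟨ρ2, hρ21, hρ2⟩ := LGR (1 / 100) (4 * (2 * W 1 * (2 * C) * (Cτ * S)) / c₀) (by norm_num)
  obtain ⟨ρ, hρ⟩ : ∃ ρ : ℝ, ρ = |ρ₀| + ρ1 + ρ2 + 1 := ⟨_, rfl⟩
  have hρa : ρ₀ ≤ ρ ∧ ρ1 ≤ ρ ∧ ρ2 ≤ ρ ∧ 1 < ρ := by
    have := le_abs_self ρ₀
    have := abs_nonneg ρ₀
    refine ⟨by linarith, by linarith, by linarith, by linarith⟩
  obtain ⟨hρb, hρc, hρd, hρe⟩ := hρa
  have hρpos : 0 < ρ := by linarith
  obtain ⟨N1, hN1⟩ := hP ρ hρb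
  obtain ⟨T, hT⟩ : ∃ T : ℝ, T = ρ ^ (7 / 10 : ℝ) := ⟨_, rfl⟩
  obtain ⟨F1, hF1⟩ : ∃ F1 : ℝ, F1 = ρ ^ (3 / 4 : ℝ) := ⟨_, rfl⟩
  have hT1 : 1 ≤ T := by rw [hT]; exact Real.one_le_rpow hρe.le (by norm_num)
  have hF11 : 1 ≤ F1 := by rw [hF1]; exact Real.one_le_rpow hρe.le (by norm_num)
  obtain ⟨E, hE⟩ : ∃ E : ℝ, E = 182 * (Cτ * F1) := ⟨_, rfl⟩
  have hE0 : 0 < E := by
    rw [hE]
    have : 0 < Cτ := by linarith
    positivity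
  obtain ⟨w, hw⟩ : ∃ w : ℝ, w = c₀ * ρ ^ (-(2 / 3) : ℝ) := ⟨_, rfl⟩
  have hw0 : 0 < w := by rw [hw]; positivity
  obtain ⟨N₀, hN₀⟩ : ∃ N₀ : ℕ, |N1| + (2001 * F1 ^ 4) ^ 2 + 3 ≤ (N₀ : ℝ) := exists_nat_ge _
  refine ⟨w / (4 * (F1 * E)), by positivity, N₀, fun f hf N hN => ?_⟩
  have hNN : (N₀ : ℝ) ≤ N := by exact_mod_cast hN
  have hsq0 : 0 ≤ (2001 * F1 ^ 4) ^ 2 := by positivity
  obtain ⟨x, hx⟩ : ∃ x : ℕ, N = x + 1 := by
    have : (3 : ℝ) ≤ N := by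
      have := abs_nonneg N1
      linarith
    have h3 : 3 ≤ N := by exact_mod_cast this
    exact ⟨N - 1, by omega⟩
  obtain ⟨R, hR⟩ : ∃ R : ℝ, R = (x : ℝ) := ⟨_, rfl⟩
  have hNR : (N : ℝ) = R + 1 := by rw [hx, hR]; push_cast; ring
  have hRb : N1 ≤ R ∧ (2001 * F1 ^ 4) ^ 2 ≤ R ∧ 2 ≤ R := by
    have := abs_nonneg N1
    have := le_abs_self N1
    refine ⟨?_, ?_, ?_⟩ <;> linarith
  obtain ⟨b2, b3, b7⟩ := hRb
  have hRpos : 0 < R := by linarith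
  have hR1' : 1 ≤ R := by linarith
  obtain ⟨P, hPc, hPp, hPk⟩ := hN1 R b2
  have hdec : ∀ p ∈ P, ∃ d f : ℕ,
    p.D = (d : ℤ) * (f : ℤ) ^ 2 ∧ Adm d ∧ 1 ≤ d ∧ 1 ≤ f ∧ ¬ (5 : ℤ) ∣ (d : ℤ) ∧ d * f ^ 2 ≤ x ∧ 1 < (d : ℤ) ∧
    Squarefree (d : ℤ) := by
    intro p hp
    obtain ⟨q1, q2, q3, q4, q5⟩ := hPp p hp
    refine DEC p q1 x ?_
    rw [hR] at q3
    exact_mod_cast q3
  choose! d ff hdf using hdec
  have hgdv : ∀ p ∈ P, ct p ∣ ff p ∧ (ct p : OO) ∣ p.n ∧ 0 < ct p := by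
    intro p hp
    obtain ⟨i1, -, -, -, -, -, -, i8⟩ := hdf p hp
    obtain ⟨j1, -, j3, j4⟩ := hV p (hPp p hp).1 (d p) (ff p) i8 i1
    exact ⟨j1, j3, j4⟩
  obtain ⟨A, hA⟩ : ∃ A : Finset ℕ, A = (Finset.Icc 1 x).filter (fun n => Adm n) := ⟨_, rfl⟩
  have hAm : ∀ n ∈ A, Adm n ∧ n < N := by
    intro n hn
    rw [hA, Finset.mem_filter, Finset.mem_Icc] at hn
    exact ⟨hn.2, by omega⟩
  have hfld : ∀ n ∈ A, ∃ (K : Type) (_ : Field K) (_ : NumberField K), Module.finrank ℚ K = 2 ∧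
      (∃ x : K, x ^ 2 = ((n : ℤ) : K)) ∧
      f (n : ℤ) = Nat.card {x : ClassGroup (NumberField.RingOfIntegers K) // x ^ 5 = 1} ∧ 1 ≤ f (n : ℤ) := by
    intro n hn
    have h1 := (hAm n hn).1
    have := h1.pos
    exact FLDx f hf n (Or.inl h1.fund) (by omega)
  have ha : ∀ n ∈ A, (1 : ℝ) ≤ (f (n : ℤ) : ℝ) := by
    intro n hn
    obtain ⟨K, iF, iN, h1, h2, h3, h4⟩ := hfld n hn
    exact_mod_cast h4
  have hSS := AVG f C hCpos (fun M => (hC₀ f hf M).trans (mul_le_mul_of_nonneg_right hCC (Nat.cast_nonneg _))) A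
    (fun n hn => (hAm n hn).1)
  have hdA : ∀ p ∈ P, d p ∈ A := by
    intro p hp
    obtain ⟨i1, i2, i3, i4, i5, i6, i7, i8⟩ := hdf p hp
    rw [hA, Finset.mem_filter, Finset.mem_Icc]
    refine ⟨⟨i3, le_trans ?_ i6⟩, i2⟩
    exact Nat.le_mul_of_pos_right _ (by positivity)
  -- the fibres
  have hfib : ∀ d0 f0 g0 : ℕ, ∀ p ∈ P.filter (fun p => d p = d0 ∧ ff p = f0 ∧ ct p = g0),
      p ∈ P ∧ d p = d0 ∧ ff p = f0 ∧ ct p = g0 ∧ IsPt p ∧ p.D = (d0 : ℤ) * (f0 : ℤ) ^ 2 ∧ |p.n.norm| ≤ p.D ∧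
        (p.D : ℝ) ≤ R := by
    intro d0 f0 g0 p hp
    rw [Finset.mem_filter] at hp
    obtain ⟨h1, h2, h3, h4⟩ := hp
    obtain ⟨q1, q2, q3, q4, q5⟩ := hPp p h1
    obtain ⟨i1, -⟩ := hdf p h1
    rw [h2, h3] at i1
    exact ⟨h1, h2, h3, h4, q1, i1, q4, q3⟩
  have key : ∀ d0 ∈ A, ∀ f0 g0 : ℕ, ((P.filter (fun p => d p = d0 ∧ ff p = f0 ∧ ct p = g0)).card : ℝ) ≤
      W g0 * (36 : ℝ) ^ (f0 / (g0 * hh f0 g0)).primeFactors.card * (f (d0 : ℤ) : ℝ) * (1 + (hh f0 g0 : ℝ) ^ 2) ∧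
      (g0 = 1 → ((P.filter (fun p => d p = d0 ∧ ff p = f0 ∧ ct p = g0)).card : ℝ) ≤
        2 * W 1 * (36 : ℝ) ^ f0.primeFactors.card * (f (d0 : ℤ) : ℝ)) ∧
      (g0 = 1 → (f0 : ℝ) ≤ F1 → ((P.filter (fun p => d p = d0 ∧ ff p = f0 ∧ ct p = g0)).card : ℝ) ≤
        E * ((f (d0 : ℤ) : ℝ) - 1)) := by
    intro d0 hd0 f0 g0
    have ha0 := ha d0 hd0
    have hWg := hW0 g0
    have hW1 := hW0 1
    rcases (P.filter (fun p => d p = d0 ∧ ff p = f0 ∧ ct p = g0)).eq_empty_or_nonempty with hem | ⟨p0, hp0⟩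
    · rw [hem, Finset.card_empty, Nat.cast_zero]
      exact ⟨by positivity, fun _ => by positivity, fun _ _ => mul_nonneg hE0.le (by linarith)⟩
    obtain ⟨r1, r2, r3, r4, r5, r6, r7, r8⟩ := hfib d0 f0 g0 p0 hp0
    have r9 := (hPp p0 r1).2.1
    obtain ⟨i1, i2, i3, i4, i5, i6, i7, i8⟩ := hdf p0 r1
    obtain ⟨j1, j2, j3⟩ := hgdv p0 r1
    rw [r2] at i2 i3 i5 i7 i8
    rw [r3] at i4 j1
    rw [r4] at j1 j3
    obtain ⟨K, iF, iN, h1, h2, h3, h4⟩ := hfld d0 hd0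
    have h36' : (1 : ℝ) ≤ (36 : ℝ) ^ f0.primeFactors.card := one_le_pow₀ (by norm_num)
    have c1 := hC (d0 : ℤ) f0 g0 i7 i8 i5 K h1 h2
      (P.filter (fun p => d p = d0 ∧ ff p = f0 ∧ ct p = g0))
      (fun p hp => by
        obtain ⟨s1, s2, s3, s4, s5, s6, s7, s8⟩ := hfib d0 f0 g0 p hp
        exact ⟨s5, s6, s4, s7⟩)
      (fun p hp q hq => hPk p (hfib d0 f0 g0 p hp).1 q (hfib d0 f0 g0 q hq).1)
    rw [← h3] at c1
    refine ⟨?_, fun hg0 => ?_, fun hg0 hfT => ?_⟩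
    · refine c1.trans (le_of_eq ?_)
      ring
    · subst hg0
      have k7 : hh f0 1 = 1 := by
        have := (hhh f0 1 (by omega) (one_dvd _)).2
        rw [hH1, Finset.mem_singleton] at this
        exact this
      rw [k7, Nat.mul_one, Nat.div_one] at c1
      refine c1.trans (le_of_eq ?_)
      push_cast
      ring
    · subst hg0
      have hf0pos : (0 : ℝ) < f0 := by exact_mod_cast i4
      have t1 : (f0 : ℝ) ^ 4 ≤ F1 ^ 4 := pow_le_pow_left₀ hf0pos.le hfT 4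
      have t2 : 2001 * F1 ^ 4 ≤ √R := Real.le_sqrt_of_sq_le b3
      have t3 : √R ≤ (d0 : ℝ) * (f0 : ℝ) ^ 2 := by
        refine r9.trans (le_of_eq ?_)
        rw [r6]
        push_cast
        ring
      have t4 : 2001 * (f0 : ℝ) ^ 2 ≤ d0 := by
        have t5 : 2001 * (f0 : ℝ) ^ 2 * (f0 : ℝ) ^ 2 ≤ d0 * (f0 : ℝ) ^ 2 := by
          calc 2001 * (f0 : ℝ) ^ 2 * (f0 : ℝ) ^ 2 = 2001 * (f0 : ℝ) ^ 4 := by ring
            _ ≤ 2001 * F1 ^ 4 := mul_le_mul_of_nonneg_left t1 (by norm_num)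
            _ ≤ √R := t2
            _ ≤ _ := t3
        exact le_of_mul_le_mul_right t5 (by positivity)
      have t6 : 2000 * (f0 : ℤ) ^ 2 < (d0 : ℤ) := by
        have t7 : 2000 * (f0 : ℝ) ^ 2 < (d0 : ℝ) := by
          have : (0 : ℝ) < (f0 : ℝ) ^ 2 := by positivity
          linarith
        exact_mod_cast t7
      have c2 := hG (d0 : ℤ) f0 i7 i8 i5 t6 K h1 h2
        (P.filter (fun p => d p = d0 ∧ ff p = f0 ∧ ct p = 1))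
        (fun p hp => by
          obtain ⟨s1, s2, s3, s4, s5, s6, s7, s8⟩ := hfib d0 f0 1 p hp
          exact ⟨s5, s6, s4, s7⟩)
        (fun p hp q hq => hPk p (hfib d0 f0 1 p hp).1 q (hfib d0 f0 1 q hq).1)
      rw [← h3] at c2
      refine c2.trans ?_
      rw [hE]
      have ha1 : 0 ≤ (f (d0 : ℤ) : ℝ) - 1 := by linarith
      have t8 : (36 : ℝ) ^ f0.primeFactors.card ≤ Cτ * F1 := by
        refine (hCτ f0 (by omega)).trans (mul_le_mul_of_nonneg_left ?_ hCτ0)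
        have t9 : (1 : ℝ) ≤ f0 := by exact_mod_cast i4
        calc (f0 : ℝ) ^ (1 / 100 : ℝ) ≤ (f0 : ℝ) ^ (1 : ℝ) :=
              Real.rpow_le_rpow_of_exponent_le t9 (by norm_num)
          _ = f0 := Real.rpow_one _
          _ ≤ F1 := hfT
      calc ((f (d0 : ℤ) : ℝ) - 1) * (1 + 181 * (36 : ℝ) ^ f0.primeFactors.card)
          ≤ ((f (d0 : ℤ) : ℝ) - 1) * (182 * (Cτ * F1)) := by
            refine mul_le_mul_of_nonneg_left ?_ ha1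
            linarith
        _ = 182 * (Cτ * F1) * ((f (d0 : ℤ) : ℝ) - 1) := by ring
  -- the summation
  have main := SUMA2 P d ff ct hh H W (fun m => (36 : ℝ) ^ m.primeFactors.card) (fun n => (f (n : ℤ) : ℝ)) A x
    (2 * C) E T F1 (Cτ * S) (Cw' * S * T ^ (-(98 / 100) : ℝ)) (Cτ * S * F1 ^ (-(98 / 100) : ℝ))
    (by positivity) hE0.le hF11 ha hSS hdA
    (fun p hp => (hdf p hp).2.2.1) (fun p hp => (hdf p hp).2.2.2.1) (fun p hp => (hdf p hp).2.2.2.2.2.1)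
    (fun p hp h1 => by
      obtain ⟨l, hl1, hl2⟩ := Nat.exists_prime_and_dvd h1
      have h2 := (hPp p hp).2.2.2.2 l hl1 ((Nat.cast_dvd_cast hl2).trans (hgdv p hp).2.1)
      rw [hT]
      refine h2.le.trans ?_
      exact_mod_cast Nat.le_of_dvd (hgdv p hp).2.2 hl2)
    (fun p hp => (hhh (ff p) (ct p) (by have := (hdf p hp).2.2.2.1; omega) (hgdv p hp).1).1)
    (fun p hp => (hhh (ff p) (ct p) (by have := (hdf p hp).2.2.2.1; omega) (hgdv p hp).1).2)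
    hv0 hW0
    (by
      have h1 := hTail Cτ (fun m => (36 : ℝ) ^ m.primeFactors.card) 1 x hCτ0 hvb le_rfl
      have h2 : (Icc 1 x).filter (fun g : ℕ => (1 : ℝ) ≤ (g : ℝ)) = Icc 1 x := by
        refine Finset.filter_true_of_mem fun g hg => ?_
        rw [Finset.mem_Icc] at hg
        exact_mod_cast hg.1
      rw [h2, Real.one_rpow, mul_one] at h1
      exact h1)
    (hTail Cτ (fun m => (36 : ℝ) ^ m.primeFactors.card) F1 x hCτ0 hvb hF11)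
    (hTail Cw' (fun m => W m * (H m).card) T x hCw0 hwb hT1)
    (fun d0 hd0 f0 g0 _ => (key d0 hd0 f0 g0).1)
    (fun d0 hd0 f0 => (key d0 hd0 f0 1).2.1 rfl)
    (fun d0 hd0 f0 hf0 => (key d0 hd0 f0 1).2.2 rfl hf0)
  rw [← hR] at main
  obtain ⟨SA, hSA⟩ : ∃ SA : ℝ, SA = ∑ n ∈ A, ((f (n : ℤ) : ℝ) - 1) := ⟨_, rfl⟩
  rw [← hSA] at main
  have hSAle : SA ≤ ∑ D ∈ FDs N, ((f D : ℝ) - 1) := by
    rw [hSA]
    refine SZN A N (fun D => (f D : ℝ) - 1) hAm fun D hD => ?_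
    rw [mem_FDs] at hD
    obtain ⟨K, iF, iN, h1, h2, h3, h4⟩ := FLDx f hf D hD.2 hD.1.1
    have : (1 : ℝ) ≤ (f D : ℝ) := by exact_mod_cast h4
    show 0 ≤ (f D : ℝ) - 1
    linarith
  have hTw : T ^ (-(98 / 100) : ℝ) ≤ ρ ^ (-(1 / 100) : ℝ) * ρ ^ (-(2 / 3) : ℝ) := by
    rw [hT, ← Real.rpow_mul hρpos.le, ← Real.rpow_add hρpos]
    exact Real.rpow_le_rpow_of_exponent_le hρe.le (by norm_num)
  have hFw : F1 ^ (-(98 / 100) : ℝ) ≤ ρ ^ (-(1 / 100) : ℝ) * ρ ^ (-(2 / 3) : ℝ) := by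
    rw [hF1, ← Real.rpow_mul hρpos.le, ← Real.rpow_add hρpos]
    exact Real.rpow_le_rpow_of_exponent_le hρe.le (by norm_num)
  have hinv : ρ ^ (-(1 / 100) : ℝ) * ρ ^ (1 / 100 : ℝ) = 1 := by
    rw [← Real.rpow_add hρpos]
    norm_num
  have hneg0 : 0 ≤ ρ ^ (-(1 / 100) : ℝ) := by positivity
  have hgen : ∀ Z : ℝ, 4 * Z / c₀ ≤ ρ ^ (1 / 100 : ℝ) → 0 ≤ Z →
      Z * (ρ ^ (-(1 / 100) : ℝ) * ρ ^ (-(2 / 3) : ℝ)) ≤ w / 4 := by
    intro Z hZ hZ0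
    have h1 : 4 * Z ≤ ρ ^ (1 / 100 : ℝ) * c₀ := (div_le_iff₀ hc₀).mp hZ
    have h2 : 4 * Z * ρ ^ (-(1 / 100) : ℝ) ≤ c₀ := by
      calc 4 * Z * ρ ^ (-(1 / 100) : ℝ) ≤ ρ ^ (1 / 100 : ℝ) * c₀ * ρ ^ (-(1 / 100) : ℝ) :=
            mul_le_mul_of_nonneg_right h1 hneg0
        _ = (ρ ^ (-(1 / 100) : ℝ) * ρ ^ (1 / 100 : ℝ)) * c₀ := by ring
        _ = c₀ := by rw [hinv, one_mul]
    have h3 : 0 ≤ ρ ^ (-(2 / 3) : ℝ) := by positivity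
    have h4 := mul_le_mul_of_nonneg_right h2 h3
    rw [hw]
    linarith
  have m1 : 2 * (2 * C) * (Cτ * S) * (Cw' * S * T ^ (-(98 / 100) : ℝ)) * R ≤ w / 4 * R := by
    refine mul_le_mul_of_nonneg_right ?_ hRpos.le
    calc 2 * (2 * C) * (Cτ * S) * (Cw' * S * T ^ (-(98 / 100) : ℝ))
        = (2 * (2 * C) * (Cτ * S) * (Cw' * S)) * T ^ (-(98 / 100) : ℝ) := by ring
      _ ≤ (2 * (2 * C) * (Cτ * S) * (Cw' * S)) * (ρ ^ (-(1 / 100) : ℝ) * ρ ^ (-(2 / 3) : ℝ)) :=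
          mul_le_mul_of_nonneg_left hTw (by positivity)
      _ ≤ w / 4 := hgen _ (hρ1 ρ hρc) (by positivity)
  have hW1 := hW0 1
  have m2 : 2 * W 1 * (2 * C) * (Cτ * S * F1 ^ (-(98 / 100) : ℝ)) * R ≤ w / 4 * R := by
    refine mul_le_mul_of_nonneg_right ?_ hRpos.le
    calc 2 * W 1 * (2 * C) * (Cτ * S * F1 ^ (-(98 / 100) : ℝ))
        = (2 * W 1 * (2 * C) * (Cτ * S)) * F1 ^ (-(98 / 100) : ℝ) := by ring
      _ ≤ (2 * W 1 * (2 * C) * (Cτ * S)) * (ρ ^ (-(1 / 100) : ℝ) * ρ ^ (-(2 / 3) : ℝ)) :=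
          mul_le_mul_of_nonneg_left hFw (by positivity)
      _ ≤ w / 4 := hgen _ (hρ2 ρ hρd) (by positivity)
  rw [← hw] at hPc
  have m3 : w / 2 * R ≤ F1 * E * SA := by linarith
  show w / (4 * (F1 * E)) * (N : ℝ) ≤ ∑ D ∈ FDs N, ((f D : ℝ) - 1)
  refine le_trans ?_ hSAle
  have hFE : 0 < F1 * E := by positivity
  have h1 : w / (4 * (F1 * E)) * (N : ℝ) ≤ w / (4 * (F1 * E)) * (2 * R) :=
    mul_le_mul_of_nonneg_left (by rw [hNR]; linarith) (by positivity)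
  refine h1.trans ?_
  have h2 : w / (4 * (F1 * E)) * (2 * R) = w / 2 * R / (F1 * E) := by
    field_simp
    ring
  rw [h2, div_le_iff₀ hFE]
  linarith

end Pool.Agent.RF
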