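import Pool.Agent.helper6.RF.SMO

set_option autoImplicit false

/-!
# RF (MP_16912e_nt), final sums: the abstract summation
-/

namespace Pool.Agent.RF

open Finset

theorem sq_tail (T : ℝ) (hT : 1 ≤ T) (x : ℕ) :
    ∑ g ∈ (Icc 1 x).filter (fun g : ℕ => T ≤ (g : ℝ)), ((g : ℝ) ^ 2)⁻¹ ≤ 2 / T := by
  have hc : 1 ≤ ⌈T⌉₊ := Nat.one_le_ceil_iff.mpr (by linarith)
  have h1 : (Icc 1 x).filter (fun g : ℕ => T ≤ (g : ℝ)) ⊆ Ioo (⌈T⌉₊ - 1) (x + 1) := by
    intro g hg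
    rw [Finset.mem_filter, Finset.mem_Icc] at hg
    rw [Finset.mem_Ioo]
    have := Nat.ceil_le.mpr hg.2
    omega
  refine (Finset.sum_le_sum_of_subset_of_nonneg h1 fun _ _ _ => by positivity).trans ?_
  refine (sum_Ioo_inv_sq_le _ _).trans ?_
  refine div_le_div_of_nonneg_left (by norm_num) (by linarith) ?_
  have h2 : ((⌈T⌉₊ - 1 : ℕ) : ℝ) = (⌈T⌉₊ : ℝ) - 1 := by
    rw [Nat.cast_sub hc]
    simp
  rw [h2]
  have := Nat.le_ceil T
  linarith

theorem sq_all (x : ℕ) : ∑ m ∈ Icc 1 x, ((m : ℝ) ^ 2)⁻¹ ≤ 2 := by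
  have h := sq_tail 1 le_rfl x
  have h1 : (Icc 1 x).filter (fun g : ℕ => (1 : ℝ) ≤ (g : ℝ)) = Icc 1 x := by
    refine Finset.filter_true_of_mem fun g hg => ?_
    rw [Finset.mem_Icc] at hg
    exact_mod_cast hg.1
  rw [h1] at h
  linarith

theorem card_fib {α β : Type} [DecidableEq β] (P : Finset α) (φ : α → β) (B : Finset β) (G : β → ℝ)
    (h1 : ∀ p ∈ P, φ p ∈ B) (h2 : ∀ b ∈ B, ((P.filter (fun p => φ p = b)).card : ℝ) ≤ G b) :
    (P.card : ℝ) ≤ ∑ b ∈ B, G b := by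
  rw [Finset.card_eq_sum_card_fiberwise (f := φ) (t := B) (fun p hp => h1 p hp)]
  push_cast
  exact Finset.sum_le_sum h2

/-- the bad points of given `g` -/
theorem SUMB {ι : Type} (P : Finset ι) (d f : ι → ℕ) (hf : ℕ → ℕ) (a : ℕ → ℝ) (A : Finset ℕ)
    (x g0 : ℕ) (C E L : ℝ) (hC : 0 ≤ C) (hE : 0 ≤ E) (hg0 : 1 ≤ g0)
    (ha : ∀ n ∈ A, 1 ≤ a n)
    (hS : ∀ y : ℝ, 0 ≤ y → ∑ n ∈ A.filter (fun n : ℕ => (n : ℝ) ≤ y), a n ≤ C * y)
    (hdA : ∀ p ∈ P, d p ∈ A) (hd : ∀ p ∈ P, 1 ≤ d p) (hf1 : ∀ p ∈ P, 1 ≤ f p)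
    (hx : ∀ p ∈ P, d p * f p ^ 2 ≤ x)
    (hgh : ∀ p ∈ P, g0 * hf (f p) ∣ f p)
    (hhg : ∀ p ∈ P, (hf (f p)).primeFactors ⊆ g0.primeFactors)
    (hLL : (((Icc 1 x).filter (fun h => h.primeFactors ⊆ g0.primeFactors)).card : ℝ) ≤ L)
    (hc : ∀ d0 ∈ A, ∀ f0 : ℕ, ((P.filter (fun p => d p = d0 ∧ f p = f0)).card : ℝ) ≤
      E * a d0 * (1 + (hf f0 : ℝ) ^ 2)) :
    (P.card : ℝ) ≤ 4 * E * C * L * x * ((g0 : ℝ) ^ 2)⁻¹ := by
  classical
  have hfx : ∀ p ∈ P, f p ≤ x := by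
    intro p hp
    have h1 := hx p hp
    have h2 := hd p hp
    have h3 := hf1 p hp
    have h4 : f p ≤ f p ^ 2 := Nat.le_self_pow (by norm_num) _
    calc f p ≤ f p ^ 2 := h4
      _ ≤ d p * f p ^ 2 := Nat.le_mul_of_pos_left _ h2
      _ ≤ x := h1
  have hh1 : ∀ p ∈ P, 1 ≤ hf (f p) := by
    intro p hp
    have h1 := hgh p hp
    have h2 := hf1 p hp
    rcases Nat.eq_zero_or_pos (hf (f p)) with h | h
    · rw [h, Nat.mul_zero, zero_dvd_iff] at h1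
      omega
    · exact h
  have hg0' : (0 : ℝ) < g0 := by exact_mod_cast hg0
  -- fixed `h`, `m`
  have k1 : ∀ h0 ∈ (Icc 1 x).filter (fun h => h.primeFactors ⊆ g0.primeFactors), ∀ m0 ∈ Icc 1 x,
      (((P.filter (fun p => hf (f p) = h0)).filter (fun p => f p / (g0 * hf (f p)) = m0)).card : ℝ) ≤
        2 * E * C * x * ((g0 : ℝ) ^ 2)⁻¹ * ((m0 : ℝ) ^ 2)⁻¹ := by
    intro h0 hh0 m0 hm0
    rw [Finset.mem_filter, Finset.mem_Icc] at hh0
    rw [Finset.mem_Icc] at hm0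
    have hh0' : (1 : ℝ) ≤ h0 := by exact_mod_cast hh0.1.1
    have hm0' : (1 : ℝ) ≤ m0 := by exact_mod_cast hm0.1
    set Q := (P.filter (fun p => hf (f p) = h0)).filter (fun p => f p / (g0 * hf (f p)) = m0) with hQ
    have hQf : ∀ p ∈ Q, p ∈ P ∧ hf (f p) = h0 ∧ f p = g0 * h0 * m0 := by
      intro p hp
      rw [hQ, Finset.mem_filter, Finset.mem_filter] at hp
      refine ⟨hp.1.1, hp.1.2, ?_⟩
      have h1 := hgh p hp.1.1
      have h2 := hp.2
      rw [hp.1.2] at h1 h2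
      rw [← h2]
      exact (Nat.mul_div_cancel' h1).symm
    set y : ℝ := x / ((g0 : ℝ) * h0 * m0) ^ 2 with hy
    have hy0 : 0 ≤ y := by positivity
    have k2 : (Q.card : ℝ) ≤ ∑ n ∈ A.filter (fun n : ℕ => (n : ℝ) ≤ y), E * a n * (1 + (h0 : ℝ) ^ 2) := by
      refine card_fib Q d _ _ ?_ ?_
      · intro p hp
        obtain ⟨h1, h2, h3⟩ := hQf p hp
        rw [Finset.mem_filter]
        refine ⟨hdA p h1, ?_⟩
        rw [hy, le_div_iff₀ (by positivity)]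
        have h4 := hx p h1
        rw [h3] at h4
        exact_mod_cast h4
      · intro n hn
        rw [Finset.mem_filter] at hn
        rcases (Q.filter (fun p => d p = n)).eq_empty_or_nonempty with he | ⟨p, hp⟩
        · rw [he, Finset.card_empty, Nat.cast_zero]
          have := ha n hn.1
          positivity
        · rw [Finset.mem_filter] at hp
          obtain ⟨h1, h2, h3⟩ := hQf p hp.1
          have h5 := hc n hn.1 (g0 * h0 * m0)
          rw [← h3, h2] at h5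
          refine le_trans ?_ h5
          have h6 : Q.filter (fun p => d p = n) ⊆ P.filter (fun q => d q = n ∧ f q = f p) := by
            intro q hq
            rw [Finset.mem_filter] at hq
            obtain ⟨i1, i2, i3⟩ := hQf q hq.1
            rw [Finset.mem_filter]
            exact ⟨i1, hq.2, by rw [i3, h3]⟩
          exact_mod_cast Finset.card_le_card h6
    refine k2.trans ?_
    have k3 : ∑ n ∈ A.filter (fun n : ℕ => (n : ℝ) ≤ y), E * a n * (1 + (h0 : ℝ) ^ 2) =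
        E * (1 + (h0 : ℝ) ^ 2) * ∑ n ∈ A.filter (fun n : ℕ => (n : ℝ) ≤ y), a n := by
      rw [Finset.mul_sum]
      exact Finset.sum_congr rfl fun _ _ => by ring
    rw [k3]
    calc E * (1 + (h0 : ℝ) ^ 2) * ∑ n ∈ A.filter (fun n : ℕ => (n : ℝ) ≤ y), a n
        ≤ E * (1 + (h0 : ℝ) ^ 2) * (C * y) :=
          mul_le_mul_of_nonneg_left (hS y hy0) (by positivity)
      _ ≤ E * (2 * (h0 : ℝ) ^ 2) * (C * y) := by
          have : (1 : ℝ) + (h0 : ℝ) ^ 2 ≤ 2 * (h0 : ℝ) ^ 2 := by nlinarith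
          have h7 : 0 ≤ C * y := by positivity
          exact mul_le_mul_of_nonneg_right (mul_le_mul_of_nonneg_left this hE) h7
      _ = 2 * E * C * x * ((g0 : ℝ) ^ 2)⁻¹ * ((m0 : ℝ) ^ 2)⁻¹ := by
          rw [hy]
          field_simp
  have k4 : ∀ h0 ∈ (Icc 1 x).filter (fun h => h.primeFactors ⊆ g0.primeFactors),
      ((P.filter (fun p => hf (f p) = h0)).card : ℝ) ≤ 4 * E * C * x * ((g0 : ℝ) ^ 2)⁻¹ := by
    intro h0 hh0
    have h1 : ((P.filter (fun p => hf (f p) = h0)).card : ℝ) ≤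
        ∑ m0 ∈ Icc 1 x, 2 * E * C * x * ((g0 : ℝ) ^ 2)⁻¹ * ((m0 : ℝ) ^ 2)⁻¹ := by
      refine card_fib _ (fun p => f p / (g0 * hf (f p))) _ _ ?_ (k1 h0 hh0)
      intro p hp
      rw [Finset.mem_filter] at hp
      have h2 := hgh p hp.1
      have h3 := hf1 p hp.1
      have h4 := hfx p hp.1
      rw [Finset.mem_Icc]
      refine ⟨Nat.div_pos (Nat.le_of_dvd h3 h2) ?_, (Nat.div_le_self _ _).trans h4⟩
      exact Nat.mul_pos hg0 (hh1 p hp.1)
    refine h1.trans ?_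
    rw [← Finset.mul_sum]
    calc 2 * E * C * x * ((g0 : ℝ) ^ 2)⁻¹ * ∑ m0 ∈ Icc 1 x, ((m0 : ℝ) ^ 2)⁻¹
        ≤ 2 * E * C * x * ((g0 : ℝ) ^ 2)⁻¹ * 2 := mul_le_mul_of_nonneg_left (sq_all x) (by positivity)
      _ = 4 * E * C * x * ((g0 : ℝ) ^ 2)⁻¹ := by ring
  have k5 : (P.card : ℝ) ≤ ∑ h0 ∈ (Icc 1 x).filter (fun h => h.primeFactors ⊆ g0.primeFactors),
      4 * E * C * x * ((g0 : ℝ) ^ 2)⁻¹ := by
    refine card_fib P (fun p => hf (f p)) _ _ ?_ k4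
    intro p hp
    rw [Finset.mem_filter, Finset.mem_Icc]
    refine ⟨⟨hh1 p hp, ?_⟩, hhg p hp⟩
    exact (Nat.le_of_dvd (hf1 p hp) ((Dvd.intro_left _ rfl).trans (hgh p hp))).trans (hfx p hp)
  refine k5.trans ?_
  rw [Finset.sum_const, nsmul_eq_mul]
  calc (((Icc 1 x).filter (fun h => h.primeFactors ⊆ g0.primeFactors)).card : ℝ) *
        (4 * E * C * x * ((g0 : ℝ) ^ 2)⁻¹)
      ≤ L * (4 * E * C * x * ((g0 : ℝ) ^ 2)⁻¹) := mul_le_mul_of_nonneg_right hLL (by positivity)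
    _ = 4 * E * C * L * x * ((g0 : ℝ) ^ 2)⁻¹ := by ring

/-- the good points, `f` large -/
theorem SUMG {ι : Type} (P : Finset ι) (d f : ι → ℕ) (a : ℕ → ℝ) (A : Finset ℕ)
    (x : ℕ) (C E F1 : ℝ) (hC : 0 ≤ C) (hE : 0 ≤ E) (hF : 1 ≤ F1)
    (hS : ∀ y : ℝ, 0 ≤ y → ∑ n ∈ A.filter (fun n : ℕ => (n : ℝ) ≤ y), a n ≤ C * y)
    (hdA : ∀ p ∈ P, d p ∈ A) (hd : ∀ p ∈ P, 1 ≤ d p) (hf1 : ∀ p ∈ P, F1 ≤ (f p : ℝ))
    (hx : ∀ p ∈ P, d p * f p ^ 2 ≤ x)
    (hc : ∀ d0 ∈ A, ∀ f0 : ℕ, ((P.filter (fun p => d p = d0 ∧ f p = f0)).card : ℝ) ≤ E * a d0) :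
    (P.card : ℝ) ≤ 2 * E * C * x / F1 := by
  classical
  have hf0 : ∀ p ∈ P, 1 ≤ f p := by
    intro p hp
    have := hf1 p hp
    exact_mod_cast hF.trans this
  have hfx : ∀ p ∈ P, f p ≤ x := by
    intro p hp
    have h1 := hx p hp
    have h2 := hd p hp
    have h4 : f p ≤ f p ^ 2 := Nat.le_self_pow (by norm_num) _
    calc f p ≤ f p ^ 2 := h4
      _ ≤ d p * f p ^ 2 := Nat.le_mul_of_pos_left _ h2
      _ ≤ x := h1
  have k1 : ∀ f0 ∈ (Icc 1 x).filter (fun g : ℕ => F1 ≤ (g : ℝ)), ((P.filter (fun p => f p = f0)).card : ℝ) ≤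
      E * C * x * ((f0 : ℝ) ^ 2)⁻¹ := by
    intro f0 hf0'
    rw [Finset.mem_filter, Finset.mem_Icc] at hf0'
    have hf0'' : (1 : ℝ) ≤ f0 := by exact_mod_cast hf0'.1.1
    set y : ℝ := x / (f0 : ℝ) ^ 2 with hy
    have hy0 : 0 ≤ y := by positivity
    have k2 : ((P.filter (fun p => f p = f0)).card : ℝ) ≤
        ∑ n ∈ A.filter (fun n : ℕ => (n : ℝ) ≤ y), E * a n := by
      refine card_fib _ d _ _ ?_ ?_
      · intro p hp
        rw [Finset.mem_filter] at hp ⊢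
        refine ⟨hdA p hp.1, ?_⟩
        rw [hy, le_div_iff₀ (by positivity)]
        have h4 := hx p hp.1
        rw [hp.2] at h4
        exact_mod_cast h4
      · intro n hn
        refine le_trans ?_ (hc n (Finset.mem_filter.mp hn).1 f0)
        have h6 : (P.filter (fun p => f p = f0)).filter (fun p => d p = n) ⊆
            P.filter (fun q => d q = n ∧ f q = f0) := by
          intro q hq
          rw [Finset.mem_filter, Finset.mem_filter] at hq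
          rw [Finset.mem_filter]
          exact ⟨hq.1.1, hq.2, hq.1.2⟩
        exact_mod_cast Finset.card_le_card h6
    refine k2.trans ?_
    rw [← Finset.mul_sum]
    calc E * ∑ n ∈ A.filter (fun n : ℕ => (n : ℝ) ≤ y), a n ≤ E * (C * y) :=
          mul_le_mul_of_nonneg_left (hS y hy0) hE
      _ = E * C * x * ((f0 : ℝ) ^ 2)⁻¹ := by
          rw [hy]
          field_simp
  have k5 : (P.card : ℝ) ≤ ∑ f0 ∈ (Icc 1 x).filter (fun g : ℕ => F1 ≤ (g : ℝ)),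
      E * C * x * ((f0 : ℝ) ^ 2)⁻¹ := by
    refine card_fib P f _ _ ?_ k1
    intro p hp
    rw [Finset.mem_filter, Finset.mem_Icc]
    exact ⟨⟨hf0 p hp, hfx p hp⟩, hf1 p hp⟩
  refine k5.trans ?_
  rw [← Finset.mul_sum]
  calc E * C * x * ∑ f0 ∈ (Icc 1 x).filter (fun g : ℕ => F1 ≤ (g : ℝ)), ((f0 : ℝ) ^ 2)⁻¹
      ≤ E * C * x * (2 / F1) := mul_le_mul_of_nonneg_left (sq_tail F1 hF x) (by positivity)
    _ = 2 * E * C * x / F1 := by ring

/-- the good points, `f` small -/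
theorem SUMS {ι : Type} (P : Finset ι) (d f : ι → ℕ) (a : ℕ → ℝ) (A : Finset ℕ)
    (E F1 : ℝ) (hE : 0 ≤ E) (hF : 1 ≤ F1)
    (ha : ∀ n ∈ A, 1 ≤ a n)
    (hdA : ∀ p ∈ P, d p ∈ A) (hf0 : ∀ p ∈ P, 1 ≤ f p) (hf1 : ∀ p ∈ P, (f p : ℝ) ≤ F1)
    (hc : ∀ d0 ∈ A, ∀ f0 : ℕ, (f0 : ℝ) ≤ F1 →
      ((P.filter (fun p => d p = d0 ∧ f p = f0)).card : ℝ) ≤ E * (a d0 - 1)) :
    (P.card : ℝ) ≤ F1 * E * ∑ n ∈ A, (a n - 1) := by
  classical
  have k1 : ∀ f0 ∈ Icc 1 ⌊F1⌋₊, ((P.filter (fun p => f p = f0)).card : ℝ) ≤ ∑ n ∈ A, E * (a n - 1) := by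
    intro f0 hf0'
    rw [Finset.mem_Icc] at hf0'
    have h2 : (f0 : ℝ) ≤ F1 := (Nat.le_floor_iff (by linarith)).mp hf0'.2
    refine card_fib _ d _ _ ?_ ?_
    · intro p hp
      rw [Finset.mem_filter] at hp
      exact hdA p hp.1
    · intro n hn
      refine le_trans ?_ (hc n hn f0 h2)
      have h6 : (P.filter (fun p => f p = f0)).filter (fun p => d p = n) ⊆
          P.filter (fun q => d q = n ∧ f q = f0) := by
        intro q hq
        rw [Finset.mem_filter, Finset.mem_filter] at hq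
        rw [Finset.mem_filter]
        exact ⟨hq.1.1, hq.2, hq.1.2⟩
      exact_mod_cast Finset.card_le_card h6
  have k5 : (P.card : ℝ) ≤ ∑ f0 ∈ Icc 1 ⌊F1⌋₊, ∑ n ∈ A, E * (a n - 1) := by
    refine card_fib P f _ _ ?_ k1
    intro p hp
    rw [Finset.mem_Icc]
    exact ⟨hf0 p hp, Nat.le_floor (hf1 p hp)⟩
  refine k5.trans ?_
  rw [Finset.sum_const, nsmul_eq_mul, Nat.card_Icc, Nat.add_sub_cancel, ← Finset.mul_sum]
  have h7 : 0 ≤ ∑ n ∈ A, (a n - 1) := Finset.sum_nonneg fun n hn => by linarith [ha n hn]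
  calc (⌊F1⌋₊ : ℝ) * (E * ∑ n ∈ A, (a n - 1)) ≤ F1 * (E * ∑ n ∈ A, (a n - 1)) :=
        mul_le_mul_of_nonneg_right (Nat.floor_le (by linarith)) (by positivity)
    _ = F1 * E * ∑ n ∈ A, (a n - 1) := by ring

/-- the abstract summation: `a d` is the size of the class group, `A` the set of the admissible `d`,
`hf f g` the quotient of the `g`-part of `f` by `g` -/
theorem SUMA {ι : Type} (P : Finset ι) (d f g : ι → ℕ) (hf : ℕ → ℕ → ℕ) (a : ℕ → ℝ) (A : Finset ℕ)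
    (x : ℕ) (C E T F1 L : ℝ) (hC : 0 ≤ C) (hE : 0 ≤ E) (hT : 1 ≤ T) (hF : 1 ≤ F1) (hL : 0 ≤ L)
    (ha : ∀ n ∈ A, 1 ≤ a n)
    (hS : ∀ y : ℝ, 0 ≤ y → ∑ n ∈ A.filter (fun n : ℕ => (n : ℝ) ≤ y), a n ≤ C * y)
    (hdA : ∀ p ∈ P, d p ∈ A) (hd : ∀ p ∈ P, 1 ≤ d p) (hf1 : ∀ p ∈ P, 1 ≤ f p)
    (hx : ∀ p ∈ P, d p * f p ^ 2 ≤ x)
    (hg1 : ∀ p ∈ P, g p ≠ 1 → T ≤ (g p : ℝ))
    (hgh : ∀ p ∈ P, g p * hf (f p) (g p) ∣ f p)
    (hhg : ∀ p ∈ P, (hf (f p) (g p)).primeFactors ⊆ (g p).primeFactors)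
    (hLL : ∀ p ∈ P, (((Icc 1 x).filter (fun h => h.primeFactors ⊆ (g p).primeFactors)).card : ℝ) ≤ L)
    (hc : ∀ d0 ∈ A, ∀ f0 g0 : ℕ, g0 ≠ 1 → ((P.filter (fun p => d p = d0 ∧ f p = f0 ∧ g p = g0)).card : ℝ) ≤
      E * a d0 * (1 + (hf f0 g0 : ℝ) ^ 2))
    (hc1 : ∀ d0 ∈ A, ∀ f0 : ℕ, ((P.filter (fun p => d p = d0 ∧ f p = f0 ∧ g p = 1)).card : ℝ) ≤ E * a d0)
    (hc0 : ∀ d0 ∈ A, ∀ f0 : ℕ, (f0 : ℝ) ≤ F1 →
      ((P.filter (fun p => d p = d0 ∧ f p = f0 ∧ g p = 1)).card : ℝ) ≤ E * (a d0 - 1)) :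
    (P.card : ℝ) ≤ 8 * E * C * L * x / T + 2 * E * C * x / F1 + F1 * E * ∑ n ∈ A, (a n - 1) := by
  classical
  have hfx : ∀ p ∈ P, f p ≤ x := by
    intro p hp
    have h1 := hx p hp
    have h2 := hd p hp
    have h4 : f p ≤ f p ^ 2 := Nat.le_self_pow (by norm_num) _
    calc f p ≤ f p ^ 2 := h4
      _ ≤ d p * f p ^ 2 := Nat.le_mul_of_pos_left _ h2
      _ ≤ x := h1
  have hgpos : ∀ p ∈ P, 1 ≤ g p := by
    intro p hp
    have h1 := hgh p hp
    have h2 := hf1 p hp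
    rcases Nat.eq_zero_or_pos (g p) with h | h
    · rw [h, Nat.zero_mul, zero_dvd_iff] at h1
      omega
    · exact h
  -- bad points
  have b1 : ((P.filter (fun p => g p ≠ 1)).card : ℝ) ≤ 8 * E * C * L * x / T := by
    have b2 : ((P.filter (fun p => g p ≠ 1)).card : ℝ) ≤
        ∑ g0 ∈ (Icc 1 x).filter (fun g : ℕ => T ≤ (g : ℝ)), 4 * E * C * L * x * ((g0 : ℝ) ^ 2)⁻¹ := by
      refine card_fib _ g _ _ ?_ ?_
      · intro p hp
        rw [Finset.mem_filter] at hp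
        rw [Finset.mem_filter, Finset.mem_Icc]
        refine ⟨⟨hgpos p hp.1, ?_⟩, hg1 p hp.1 hp.2⟩
        exact (Nat.le_of_dvd (hf1 p hp.1) ((Dvd.intro _ rfl).trans (hgh p hp.1))).trans (hfx p hp.1)
      · intro g0 hg0
        rw [Finset.mem_filter, Finset.mem_Icc] at hg0
        rcases ((P.filter (fun p => g p ≠ 1)).filter (fun p => g p = g0)).eq_empty_or_nonempty with he | ⟨p0, hp0⟩
        · rw [he, Finset.card_empty, Nat.cast_zero]
          positivity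
        · have hq : ∀ p ∈ (P.filter (fun p => g p ≠ 1)).filter (fun p => g p = g0), p ∈ P ∧ g p ≠ 1 ∧ g p = g0 := by
            intro p hp
            rw [Finset.mem_filter, Finset.mem_filter] at hp
            exact ⟨hp.1.1, hp.1.2, hp.2⟩
          obtain ⟨i1, i2, i3⟩ := hq p0 hp0
          refine SUMB _ d f (fun f0 => hf f0 g0) a A x g0 C E L hC hE hg0.1.1 ha hS
            (fun p hp => hdA p (hq p hp).1) (fun p hp => hd p (hq p hp).1) (fun p hp => hf1 p (hq p hp).1)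
            (fun p hp => hx p (hq p hp).1) (fun p hp => ?_) (fun p hp => ?_) ?_ (fun d0 hd0 f0 => ?_)
          · have := hgh p (hq p hp).1
            rwa [(hq p hp).2.2] at this
          · have := hhg p (hq p hp).1
            rwa [(hq p hp).2.2] at this
          · have := hLL p0 i1
            rwa [i3] at this
          · refine le_trans ?_ (hc d0 hd0 f0 g0 (by rw [← i3]; exact i2))
            have h6 : ((P.filter (fun p => g p ≠ 1)).filter (fun p => g p = g0)).filter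
                (fun p => d p = d0 ∧ f p = f0) ⊆ P.filter (fun p => d p = d0 ∧ f p = f0 ∧ g p = g0) := by
              intro q hq'
              rw [Finset.mem_filter] at hq'
              have := hq q hq'.1
              rw [Finset.mem_filter]
              exact ⟨this.1, hq'.2.1, hq'.2.2, this.2.2⟩
            exact_mod_cast Finset.card_le_card h6
    refine b2.trans ?_
    rw [← Finset.mul_sum]
    calc 4 * E * C * L * x * ∑ g0 ∈ (Icc 1 x).filter (fun g : ℕ => T ≤ (g : ℝ)), ((g0 : ℝ) ^ 2)⁻¹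
        ≤ 4 * E * C * L * x * (2 / T) := mul_le_mul_of_nonneg_left (sq_tail T hT x) (by positivity)
      _ = 8 * E * C * L * x / T := by ring
  -- good points
  have b3 : ((P.filter (fun p => g p = 1 ∧ F1 ≤ (f p : ℝ))).card : ℝ) ≤ 2 * E * C * x / F1 := by
    refine SUMG _ d f a A x C E F1 hC hE hF hS ?_ ?_ ?_ ?_ ?_
    · intro p hp
      exact hdA p (Finset.mem_filter.mp hp).1
    · intro p hp
      exact hd p (Finset.mem_filter.mp hp).1
    · intro p hp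
      exact (Finset.mem_filter.mp hp).2.2
    · intro p hp
      exact hx p (Finset.mem_filter.mp hp).1
    · intro d0 hd0 f0
      refine le_trans ?_ (hc1 d0 hd0 f0)
      have h6 : (P.filter (fun p => g p = 1 ∧ F1 ≤ (f p : ℝ))).filter
          (fun p => d p = d0 ∧ f p = f0) ⊆ P.filter (fun p => d p = d0 ∧ f p = f0 ∧ g p = 1) := by
        intro q hq'
        rw [Finset.mem_filter, Finset.mem_filter] at hq'
        rw [Finset.mem_filter]
        exact ⟨hq'.1.1, hq'.2.1, hq'.2.2, hq'.1.2.1⟩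
      exact_mod_cast Finset.card_le_card h6
  have b4 : ((P.filter (fun p => g p = 1 ∧ ¬ F1 ≤ (f p : ℝ))).card : ℝ) ≤ F1 * E * ∑ n ∈ A, (a n - 1) := by
    refine SUMS _ d f a A E F1 hE hF ha ?_ ?_ ?_ ?_
    · intro p hp
      exact hdA p (Finset.mem_filter.mp hp).1
    · intro p hp
      exact hf1 p (Finset.mem_filter.mp hp).1
    · intro p hp
      exact (not_le.mp (Finset.mem_filter.mp hp).2.2).le
    · intro d0 hd0 f0 hf0
      refine le_trans ?_ (hc0 d0 hd0 f0 hf0)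
      have h6 : (P.filter (fun p => g p = 1 ∧ ¬ F1 ≤ (f p : ℝ))).filter
          (fun p => d p = d0 ∧ f p = f0) ⊆ P.filter (fun p => d p = d0 ∧ f p = f0 ∧ g p = 1) := by
        intro q hq'
        rw [Finset.mem_filter, Finset.mem_filter] at hq'
        rw [Finset.mem_filter]
        exact ⟨hq'.1.1, hq'.2.1, hq'.2.2, hq'.1.2.1⟩
      exact_mod_cast Finset.card_le_card h6
  have b5 : P.card ≤ (P.filter (fun p => g p ≠ 1)).card + ((P.filter (fun p => g p = 1 ∧ F1 ≤ (f p : ℝ))).card +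
      (P.filter (fun p => g p = 1 ∧ ¬ F1 ≤ (f p : ℝ))).card) := by
    refine le_trans (Finset.card_le_card ?_) ((Finset.card_union_le _ _).trans
      (Nat.add_le_add_left (Finset.card_union_le _ _) _))
    intro p hp
    rw [Finset.mem_union, Finset.mem_union, Finset.mem_filter, Finset.mem_filter, Finset.mem_filter]
    by_cases h1 : g p = 1
    · by_cases h2 : F1 ≤ (f p : ℝ)
      · exact Or.inr (Or.inl ⟨hp, h1, h2⟩)
      · exact Or.inr (Or.inr ⟨hp, h1, h2⟩)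
    · exact Or.inl ⟨hp, h1⟩
  have b6 : (P.card : ℝ) ≤ ((P.filter (fun p => g p ≠ 1)).card : ℝ) +
      (((P.filter (fun p => g p = 1 ∧ F1 ≤ (f p : ℝ))).card : ℝ) +
      ((P.filter (fun p => g p = 1 ∧ ¬ F1 ≤ (f p : ℝ))).card : ℝ)) := by exact_mod_cast b5
  linarith

end Pool.Agent.RF
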