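import Pool.Agent.helper60.RF.SpecB
import Pool.Agent.helper47.RA.Num
import Pool.Agent.helper47.RA.Model
import Pool.Agent.helper9.Tors.Quad
import Pool.Agent.helper6.RF.SUM

set_option autoImplicit false

/-!
# RF (MP_16912e_nt), final sums: auxiliary facts
-/

namespace Pool.Agent.RF

open Finset NumberField

/-- the part of `f` above `g` is `g` times an integer composed of the primes of `g` -/
theorem F1L (f g : ℕ) (hf : 0 < f) (hg : g ∣ f) :
    ∃ h : ℕ, f = g * f1 f g * h ∧ h.primeFactors ⊆ g.primeFactors ∧ 0 < f1 f g := by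
  classical
  have hf0 : f ≠ 0 := hf.ne'
  have hgpos : g ≠ 0 := by
    rintro rfl
    exact hf0 (zero_dvd_iff.mp hg)
  have h1 : f1 f g ∣ f := by
    have h2 : ∏ l ∈ f.primeFactors, l ^ (f.factorization l) = f := by
      have := Nat.prod_factorization_pow_eq_self hf0
      rw [Finsupp.prod, Nat.support_factorization] at this
      exact this
    conv_rhs => rw [← h2]
    exact Finset.prod_dvd_prod_of_subset _ _ _ (Finset.filter_subset _ _)
  have h3 : Nat.Coprime g (f1 f g) := by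
    refine Nat.Coprime.prod_right fun l hl => ?_
    rw [Finset.mem_filter] at hl
    have hp := Nat.prime_of_mem_primeFactors hl.1
    exact Nat.Coprime.pow_right _ ((Nat.Prime.coprime_iff_not_dvd hp).mpr hl.2).symm
  have h4 : g * f1 f g ∣ f := Nat.Coprime.mul_dvd_of_dvd_of_dvd h3 hg h1
  obtain ⟨h, hh⟩ := h4
  refine ⟨h, hh, fun l hl => ?_, Nat.pos_of_ne_zero fun h0 => ?_⟩
  · have hp := Nat.prime_of_mem_primeFactors hl
    have hd := Nat.dvd_of_mem_primeFactors hl
    rw [Nat.mem_primeFactors]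
    refine ⟨hp, ?_, hgpos⟩
    by_contra hlg
    have h5 : l ∈ f.primeFactors.filter (fun l => ¬ l ∣ g) := by
      rw [Finset.mem_filter, Nat.mem_primeFactors]
      exact ⟨⟨hp, hd.trans ⟨g * f1 f g, hh.trans (by ring)⟩, hf0⟩, hlg⟩
    have h6 : l ^ (f.factorization l) ∣ f1 f g := Finset.dvd_prod_of_mem _ h5
    have h7 : l ^ (f.factorization l + 1) ∣ f := by
      rw [pow_succ]
      exact (mul_dvd_mul h6 hd).trans ⟨g, hh.trans (by ring)⟩
    exact Nat.pow_succ_factorization_not_dvd hf0 hp h7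
  · rw [h0] at hh
    simp at hh
    omega

/-- `36 ^ ω(n)` -/
theorem OM36 (e : ℝ) (he : 0 < e) : ∃ C : ℝ, 1 ≤ C ∧ ∀ n : ℕ, 0 < n →
    (36 : ℝ) ^ n.primeFactors.card ≤ C * (n : ℝ) ^ e := by
  obtain ⟨C, hC, h⟩ := Pool.Agent.helper47.RA.card_divisors_le (e / 6) (by positivity)
  refine ⟨C ^ 6, one_le_pow₀ hC, fun n hn => ?_⟩
  have h1 : (2 : ℝ) ^ n.primeFactors.card ≤ n.divisors.card := by
    have h2 : 2 ^ n.primeFactors.card ≤ n.divisors.card := by
      rw [Nat.card_divisors hn.ne', ← Finset.prod_const]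
      refine Finset.prod_le_prod' fun p hp => ?_
      have := Nat.Prime.factorization_pos_of_dvd (Nat.prime_of_mem_primeFactors hp) hn.ne'
        (Nat.dvd_of_mem_primeFactors hp)
      omega
    exact_mod_cast h2
  have h3 := h1.trans (h n hn)
  calc (36 : ℝ) ^ n.primeFactors.card ≤ (64 : ℝ) ^ n.primeFactors.card :=
        pow_le_pow_left₀ (by norm_num) (by norm_num) _
    _ = ((2 : ℝ) ^ n.primeFactors.card) ^ 6 := by
        rw [← pow_mul, mul_comm, pow_mul]
        norm_num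
    _ ≤ (C * (n : ℝ) ^ (e / 6)) ^ 6 := pow_le_pow_left₀ (by positivity) h3 6
    _ = C ^ 6 * (n : ℝ) ^ e := by
        rw [mul_pow, ← Real.rpow_mul_natCast (Nat.cast_nonneg n)]
        congr 2
        push_cast
        ring

/-- powers of the logarithm -/
theorem LGP (k : ℕ) (e : ℝ) (he : 0 < e) : ∃ R₀ : ℝ, 1 ≤ R₀ ∧ ∀ R : ℝ, R₀ ≤ R →
    (4 * Real.logb 2 R + 1) ^ k ≤ R ^ e := by
  have h1 := (isLittleO_log_rpow_atTop (show 0 < e / (k + 1) by positivity)).bound
    (show (0 : ℝ) < Real.log 2 / 8 by have := Real.log_pos (by norm_num : (1 : ℝ) < 2); positivity)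
  have h2 := (tendsto_rpow_atTop (show 0 < e / (k + 1) by positivity)).eventually_ge_atTop 2
  obtain ⟨R₀, hR₀⟩ := Filter.eventually_atTop.mp (h1.and h2)
  refine ⟨max R₀ 1, le_max_right _ _, fun R hR => ?_⟩
  obtain ⟨h3, h4⟩ := hR₀ R ((le_max_left _ _).trans hR)
  have hR1 : 1 ≤ R := (le_max_right _ _).trans hR
  have hl2 := Real.log_pos (by norm_num : (1 : ℝ) < 2)
  have hlR : 0 ≤ Real.log R := Real.log_nonneg hR1
  rw [Real.norm_of_nonneg hlR, Real.norm_of_nonneg (by positivity)] at h3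
  have h5 : Real.logb 2 R ≤ R ^ (e / (k + 1)) / 8 := by
    rw [Real.logb, div_le_iff₀ hl2]
    linarith
  have h6 : 0 ≤ Real.logb 2 R := Real.logb_nonneg (by norm_num) hR1
  have h7 : 4 * Real.logb 2 R + 1 ≤ R ^ (e / (k + 1)) := by linarith
  calc (4 * Real.logb 2 R + 1) ^ k ≤ (R ^ (e / (k + 1))) ^ k := pow_le_pow_left₀ (by linarith) h7 k
    _ = R ^ (e / (k + 1) * k) := by rw [← Real.rpow_mul_natCast (by linarith)]
    _ ≤ R ^ e := by
        refine Real.rpow_le_rpow_of_exponent_le hR1 ?_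
        rw [div_mul_eq_mul_div, div_le_iff₀ (by positivity)]
        nlinarith

/-- large powers -/
theorem LGR (c K : ℝ) (hc : 0 < c) : ∃ R₀ : ℝ, 1 ≤ R₀ ∧ ∀ R : ℝ, R₀ ≤ R → K ≤ R ^ c := by
  obtain ⟨R₀, hR₀⟩ := Filter.eventually_atTop.mp ((tendsto_rpow_atTop hc).eventually_ge_atTop K)
  exact ⟨max R₀ 1, le_max_right _ _, fun R hR => hR₀ R ((le_max_left _ _).trans hR)⟩

end Pool.Agent.RF
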