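import Pool.Agent.helper6.RF.FAU

set_option autoImplicit false

/-!
# RF (MP_16912e_nt), final sums: the theorem from `PTS`, `CNT`, `CNG`, `GDV` and the bounded average
-/

namespace Pool.Agent.RF

open Finset NumberField

open Classical in
/-- the bounded average for real fields (proved: `BoundedAverage`) -/
def BAR_stmt : Prop :=
    ∃ C : ℝ, ∀ f : ℤ → ℕ,
      (∀ (K : Type) [Field K] [NumberField K], Module.finrank ℚ K = 2 →
        f (NumberField.discr K) =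
          Nat.card {x : ClassGroup (NumberField.RingOfIntegers K) // x ^ 5 = 1}) →
      ∀ N : ℕ,
        ∑ D ∈ (Finset.Ioo (0 : ℤ) (N : ℤ)).filter (fun D : ℤ =>
              (D % 4 = 1 ∧ D ≠ 1 ∧ Squarefree D) ∨
              (∃ m : ℤ, D = 4 * m ∧ (m % 4 = 2 ∨ m % 4 = 3) ∧ Squarefree m)),
            (f D : ℝ) ≤ C * N

open Classical in
/-- REAL: the total number of nontrivial classes of order 5 of the real quadratic fields of discriminant
`< N` is at least `N ^ (1 - ε)` -/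
def REAL_stmt : Prop :=
    ∀ ε : ℝ, 0 < ε → ∃ N₀ : ℕ, ∀ f : ℤ → ℕ,
      (∀ (K : Type) [Field K] [NumberField K], Module.finrank ℚ K = 2 →
        f (NumberField.discr K) =
          Nat.card {x : ClassGroup (NumberField.RingOfIntegers K) // x ^ 5 = 1}) →
      ∀ N : ℕ, N₀ ≤ N →
        (N : ℝ) ^ (1 - ε) ≤
          ∑ D ∈ (Finset.Ioo (0 : ℤ) (N : ℤ)).filter (fun D : ℤ =>
              (D % 4 = 1 ∧ D ≠ 1 ∧ Squarefree D) ∨
              (∃ m : ℤ, D = 4 * m ∧ (m % 4 = 2 ∨ m % 4 = 3) ∧ Squarefree m)),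
            ((f D : ℝ) - 1)

/-- the admissible `D₀` -/
def Adm (n : ℕ) : Prop := n % 4 = 1 ∧ n ≠ 1 ∧ Squarefree n

open Classical in
/-- the decomposition `D = D₀ f²` -/
theorem DEC (p : Pt) (hp : IsPt p) (x : ℕ) (hx : p.D ≤ x) : ∃ d f : ℕ,
    p.D = (d : ℤ) * (f : ℤ) ^ 2 ∧ Adm d ∧ 1 ≤ d ∧ 1 ≤ f ∧ ¬ (5 : ℤ) ∣ (d : ℤ) ∧ d * f ^ 2 ≤ x ∧ 1 < (d : ℤ) ∧
    Squarefree (d : ℤ) := by
  obtain ⟨d, f, h1, h2⟩ := Nat.sq_mul_squarefree p.D.toNat
  have h3 : p.D = (d : ℤ) * (f : ℤ) ^ 2 := by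
    have h4 : ((p.D.toNat : ℕ) : ℤ) = p.D := Int.toNat_of_nonneg hp.D0.le
    rw [← h4, ← h1]
    push_cast
    ring
  have hD := hp.D20
  have hD0 := hp.D0
  have hd0 : 1 ≤ d := by
    rcases Nat.eq_zero_or_pos d with h | h
    · rw [h3, h] at hD0
      simp at hD0
    · exact h
  have hf0 : 1 ≤ f := by
    rcases Nat.eq_zero_or_pos f with h | h
    · rw [h3, h] at hD0
      simp at hD0
    · exact h
  have hmod : (d * f ^ 2) % 20 = 17 := by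
    rw [h3] at hD
    exact_mod_cast hD
  have e4 : (d % 4 * (f % 4) ^ 2) % 4 = 1 := by
    have h5 : (d * f ^ 2) % 4 = 1 := by omega
    have h6 : (d % 4 * (f % 4) ^ 2) % 4 = (d * f ^ 2) % 4 := (Nat.mod_modEq d 4).mul ((Nat.mod_modEq f 4).pow 2)
    rw [h6, h5]
  have e5 : (d % 5 * (f % 5) ^ 2) % 5 = 2 := by
    have h5 : (d * f ^ 2) % 5 = 2 := by omega
    have h6 : (d % 5 * (f % 5) ^ 2) % 5 = (d * f ^ 2) % 5 := (Nat.mod_modEq d 5).mul ((Nat.mod_modEq f 5).pow 2)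
    rw [h6, h5]
  have hd4 : d % 4 = 1 := by
    have i1 : d % 4 < 4 := Nat.mod_lt _ (by norm_num)
    have i2 : f % 4 < 4 := Nat.mod_lt _ (by norm_num)
    revert e4 i1 i2
    generalize d % 4 = a
    generalize f % 4 = b
    intro h i1 i2
    interval_cases a <;> interval_cases b <;> simp_all
  have hd5 : d % 5 ≠ 0 ∧ d % 5 ≠ 1 := by
    have i1 : d % 5 < 5 := Nat.mod_lt _ (by norm_num)
    have i2 : f % 5 < 5 := Nat.mod_lt _ (by norm_num)
    revert e5 i1 i2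
    generalize d % 5 = a
    generalize f % 5 = b
    intro h i1 i2
    interval_cases a <;> interval_cases b <;> simp_all
  refine ⟨d, f, h3, ⟨hd4, by omega, h2⟩, hd0, hf0, by omega, ?_, by omega, ?_⟩
  · have : (d : ℤ) * (f : ℤ) ^ 2 ≤ x := by rw [← h3]; exact hx
    exact_mod_cast this
  · exact Int.squarefree_natCast.mpr h2

/-- the field of `d` -/
theorem FLDx (f : ℤ → ℕ) (hf : ∀ (K : Type) [Field K] [NumberField K], Module.finrank ℚ K = 2 →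
        f (NumberField.discr K) =
          Nat.card {x : ClassGroup (NumberField.RingOfIntegers K) // x ^ 5 = 1}) (D : ℤ)
    (hD : (D % 4 = 1 ∧ D ≠ 1 ∧ Squarefree D) ∨
              (∃ m : ℤ, D = 4 * m ∧ (m % 4 = 2 ∨ m % 4 = 3) ∧ Squarefree m)) (h0 : 0 < D) :
    ∃ (K : Type) (_ : Field K) (_ : NumberField K), Module.finrank ℚ K = 2 ∧ (∃ x : K, x ^ 2 = D) ∧
      f D = Nat.card {x : ClassGroup (NumberField.RingOfIntegers K) // x ^ 5 = 1} ∧ 1 ≤ f D := by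
  obtain ⟨K, iF, iN, h1, h2, -⟩ := Pool.Agent.helper47.RA.exists_model D hD h0
  have h3 := hf K h1
  rw [h2] at h3
  refine ⟨K, iF, iN, h1, ?_, h3, ?_⟩
  · obtain ⟨x, hx⟩ := Pool.Agent.helper9.Tors.exists_sqrt (K := K) h1
    exact ⟨x, by rw [hx, h2]⟩
  · rw [h3]
    have : Nonempty {x : ClassGroup (NumberField.RingOfIntegers K) // x ^ 5 = 1} := ⟨⟨1, one_pow _⟩⟩
    exact Nat.card_pos

open Classical in
/-- the fundamental discriminants in `(0, N)` -/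
noncomputable def FDs (N : ℕ) : Finset ℤ :=
  (Finset.Ioo (0 : ℤ) (N : ℤ)).filter (fun D : ℤ =>
              (D % 4 = 1 ∧ D ≠ 1 ∧ Squarefree D) ∨
              (∃ m : ℤ, D = 4 * m ∧ (m % 4 = 2 ∨ m % 4 = 3) ∧ Squarefree m))

open Classical in
theorem mem_FDs (N : ℕ) (D : ℤ) : D ∈ FDs N ↔ (0 < D ∧ D < N) ∧ ((D % 4 = 1 ∧ D ≠ 1 ∧ Squarefree D) ∨
              (∃ m : ℤ, D = 4 * m ∧ (m % 4 = 2 ∨ m % 4 = 3) ∧ Squarefree m)) := by
  rw [FDs, Finset.mem_filter, Finset.mem_Ioo]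

theorem Adm.fund {n : ℕ} (h : Adm n) : ((n : ℤ) % 4 = 1 ∧ (n : ℤ) ≠ 1 ∧ Squarefree (n : ℤ)) := by
  obtain ⟨h1, h2, h3⟩ := h
  exact ⟨by omega, by omega, Int.squarefree_natCast.mpr h3⟩

theorem Adm.pos {n : ℕ} (h : Adm n) : 1 ≤ n := by
  have := h.1
  omega

/-- sums over natural numbers and over discriminants -/
theorem SZN (A : Finset ℕ) (N : ℕ) (φ : ℤ → ℝ) (hA : ∀ n ∈ A, Adm n ∧ n < N)
    (hφ : ∀ D ∈ FDs N, 0 ≤ φ D) : ∑ n ∈ A, φ (n : ℤ) ≤ ∑ D ∈ FDs N, φ D := by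
  classical
  have h1 : ∑ n ∈ A, φ (n : ℤ) = ∑ D ∈ A.image (fun n : ℕ => (n : ℤ)), φ D := by
    rw [Finset.sum_image]
    intro a _ b _ hab
    exact Int.natCast_inj.mp hab
  rw [h1]
  refine Finset.sum_le_sum_of_subset_of_nonneg ?_ fun D hD _ => hφ D hD
  intro D hD
  rw [Finset.mem_image] at hD
  obtain ⟨n, hn, rfl⟩ := hD
  obtain ⟨h2, h3⟩ := hA n hn
  have := h2.pos
  rw [mem_FDs]
  exact ⟨⟨by omega, by omega⟩, Or.inl h2.fund⟩

/-- the class numbers of the admissible `D₀`, average -/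
theorem AVG (f : ℤ → ℕ) (C : ℝ) (hC : 0 ≤ C) (h : ∀ N : ℕ, ∑ D ∈ FDs N, (f D : ℝ) ≤ C * N)
    (A : Finset ℕ) (hA : ∀ n ∈ A, Adm n) :
    ∀ y : ℝ, 0 ≤ y → ∑ n ∈ A.filter (fun n : ℕ => (n : ℝ) ≤ y), (f (n : ℤ) : ℝ) ≤ 2 * C * y := by
  classical
  intro y hy
  rcases lt_or_ge y 1 with h1 | h1
  · rw [Finset.filter_false_of_mem, Finset.sum_empty]
    · positivity
    · intro n hn h2
      have := (hA n hn).pos
      have h3 : (1 : ℝ) ≤ n := by exact_mod_cast this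
      linarith
  · have h2 : ∑ n ∈ A.filter (fun n : ℕ => (n : ℝ) ≤ y), (f (n : ℤ) : ℝ) ≤ ∑ D ∈ FDs (⌊y⌋₊ + 1), (f D : ℝ) := by
      refine SZN _ _ (fun D => (f D : ℝ)) ?_ fun D _ => Nat.cast_nonneg _
      intro n hn
      rw [Finset.mem_filter] at hn
      exact ⟨hA n hn.1, Nat.lt_succ_of_le (Nat.le_floor hn.2)⟩
    refine h2.trans ((h _).trans ?_)
    have h3 : ((⌊y⌋₊ + 1 : ℕ) : ℝ) ≤ 2 * y := by
      push_cast
      have := Nat.floor_le hy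
      linarith
    calc C * ((⌊y⌋₊ + 1 : ℕ) : ℝ) ≤ C * (2 * y) := mul_le_mul_of_nonneg_left h3 hC
      _ = 2 * C * y := by ring

/-- the bound of one fibre, `g` arbitrary -/
theorem FIB1 (m36 u h a Cτ v : ℝ) (ha : 0 ≤ a) (hm : 1 ≤ m36) (hmC : m36 ≤ Cτ * v) (hu : 0 ≤ u) (huv : u ≤ v) :
    u * (a * (1 + m36 * (1 + 180 * h ^ 2))) ≤ 182 * Cτ * (v * v) * a * (1 + h ^ 2) := by
  have h1 : 1 + m36 * (1 + 180 * h ^ 2) ≤ 182 * m36 * (1 + h ^ 2) := by nlinarith [sq_nonneg h, mul_nonneg (show 0 ≤ m36 by linarith) (sq_nonneg h)]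
  have hv : 0 ≤ v := hu.trans huv
  calc u * (a * (1 + m36 * (1 + 180 * h ^ 2))) ≤ v * (a * (182 * m36 * (1 + h ^ 2))) := by
        refine mul_le_mul huv (mul_le_mul_of_nonneg_left h1 ha) ?_ hv
        have : 0 ≤ m36 * (1 + 180 * h ^ 2) := by positivity
        exact mul_nonneg ha (by linarith)
    _ = 182 * v * a * (1 + h ^ 2) * m36 := by ring
    _ ≤ 182 * v * a * (1 + h ^ 2) * (Cτ * v) := mul_le_mul_of_nonneg_left hmC (by positivity)
    _ = 182 * Cτ * (v * v) * a * (1 + h ^ 2) := by ring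

theorem REAL_of (hP : PTS_stmt) (hC : CNT_stmt) (hG : CNG_stmt) (hV : GDV_stmt) (hB : BAR_stmt) : REAL_stmt := by
  classical
  intro ε hε
  obtain ⟨C₀, hC₀⟩ := hB
  obtain ⟨C, hCC, hCpos⟩ : ∃ C : ℝ, C₀ ≤ C ∧ 0 ≤ C := ⟨max C₀ 0, le_max_left _ _, le_max_right _ _⟩
  obtain ⟨η, hη0, hη1, hηε⟩ : ∃ η : ℝ, 0 < η ∧ η ≤ 1 / 100 ∧ 4 * η ≤ ε := by
    refine ⟨min (ε / 4) (1 / 100), lt_min (by positivity) (by norm_num), min_le_right _ _, ?_⟩
    have := min_le_left (ε / 4) (1 / 100)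
    linarith
  obtain ⟨e, he⟩ : ∃ e : ℝ, e = η / 200 := ⟨_, rfl⟩
  have he0 : 0 < e := by rw [he]; positivity
  obtain ⟨Cτ, hCτ1, hCτ⟩ := OM36 e he0
  obtain ⟨m, hm⟩ : ∃ m : ℕ, 4 / (3 * η) ≤ (m : ℝ) := exists_nat_ge _
  obtain ⟨R1, hR11, hR1⟩ := LGP (64 * m) e he0
  obtain ⟨N1, hN1⟩ := hP η hη0 hη1
  obtain ⟨R2, hR21, hR2⟩ := LGR (η / 20 - 3 * e) (4 * (8 * (182 * Cτ) * (2 * C))) (by rw [he]; linarith)
  obtain ⟨R3, hR31, hR3⟩ := LGR (η / 20 - 2 * e) (4 * (2 * (182 * Cτ) * (2 * C))) (by rw [he]; linarith)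
  obtain ⟨R4, hR41, hR4⟩ := LGR (27 / 50 * η) (728 * Cτ) (by positivity)
  obtain ⟨R5, hR51, hR5⟩ := LGR (1 / 2 - 3 * η) 2001 (by linarith)
  obtain ⟨N₀, hN₀⟩ : ∃ N₀ : ℕ, |R1| + |N1| + |R2| + |R3| + |R4| + |R5| + 3 ≤ (N₀ : ℝ) := exists_nat_ge _
  refine ⟨N₀, fun f hf N hN => ?_⟩
  have hNN : (N₀ : ℝ) ≤ N := by exact_mod_cast hN
  obtain ⟨x, hx⟩ : ∃ x : ℕ, N = x + 1 := by
    have : (3 : ℝ) ≤ N := by
      have := abs_nonneg R1; have := abs_nonneg N1; have := abs_nonneg R2; have := abs_nonneg R3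
      have := abs_nonneg R4; have := abs_nonneg R5
      linarith
    have h3 : 3 ≤ N := by exact_mod_cast this
    exact ⟨N - 1, by omega⟩
  obtain ⟨R, hR⟩ : ∃ R : ℝ, R = (x : ℝ) := ⟨_, rfl⟩
  have hNR : (N : ℝ) = R + 1 := by rw [hx, hR]; push_cast; ring
  have hRb : R1 ≤ R ∧ N1 ≤ R ∧ R2 ≤ R ∧ R3 ≤ R ∧ R4 ≤ R ∧ R5 ≤ R ∧ 2 ≤ R := by
    have := abs_nonneg R1; have := abs_nonneg N1; have := abs_nonneg R2; have := abs_nonneg R3
    have := abs_nonneg R4; have := abs_nonneg R5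
    have := le_abs_self R1; have := le_abs_self N1; have := le_abs_self R2; have := le_abs_self R3
    have := le_abs_self R4; have := le_abs_self R5
    refine ⟨?_, ?_, ?_, ?_, ?_, ?_, ?_⟩ <;> linarith
  obtain ⟨b1, b2, b3, b4, b5, b6, b7⟩ := hRb
  have hRpos : 0 < R := by linarith
  have hR1' : 1 ≤ R := by linarith
  obtain ⟨P, hPc, hPp, hPk⟩ := hN1 R b2
  have hdec : ∀ p ∈ P, ∃ d f : ℕ,
    p.D = (d : ℤ) * (f : ℤ) ^ 2 ∧ Adm d ∧ 1 ≤ d ∧ 1 ≤ f ∧ ¬ (5 : ℤ) ∣ (d : ℤ) ∧ d * f ^ 2 ≤ x ∧ 1 < (d : ℤ) ∧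
    Squarefree (d : ℤ) := by
    intro p hp
    obtain ⟨q1, q2, q3, q4, q5⟩ := hPp p hp
    refine DEC p q1 x ?_
    rw [hR] at q3
    exact_mod_cast q3
  choose! d ff hdf using hdec
  have hgdv : ∀ p ∈ P, ct p ∣ ff p ∧ (ct p : OO) ∣ p.n ∧ 0 < ct p := by
    intro p hp
    obtain ⟨i1, -, -, -, -, -, -, i8⟩ := hdf p hp
    obtain ⟨j1, -, j3, j4⟩ := hV p (hPp p hp).1 (d p) (ff p) i8 i1
    exact ⟨j1, j3, j4⟩
  obtain ⟨T, hT⟩ : ∃ T : ℝ, T = R ^ (3 / 4 * η) := ⟨_, rfl⟩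
  have hT1 : 1 < T := by rw [hT]; exact Real.one_lt_rpow (by linarith) (by positivity)
  obtain ⟨A, hA⟩ : ∃ A : Finset ℕ, A = (Finset.Icc 1 x).filter (fun n => Adm n) := ⟨_, rfl⟩
  have hAm : ∀ n ∈ A, Adm n ∧ n < N := by
    intro n hn
    rw [hA, Finset.mem_filter, Finset.mem_Icc] at hn
    exact ⟨hn.2, by omega⟩
  have hfld : ∀ n ∈ A, ∃ (K : Type) (_ : Field K) (_ : NumberField K), Module.finrank ℚ K = 2 ∧
      (∃ x : K, x ^ 2 = ((n : ℤ) : K)) ∧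
      f (n : ℤ) = Nat.card {x : ClassGroup (NumberField.RingOfIntegers K) // x ^ 5 = 1} ∧ 1 ≤ f (n : ℤ) := by
    intro n hn
    have h1 := (hAm n hn).1
    have := h1.pos
    exact FLDx f hf n (Or.inl h1.fund) (by omega)
  have ha : ∀ n ∈ A, (1 : ℝ) ≤ (f (n : ℤ) : ℝ) := by
    intro n hn
    obtain ⟨K, iF, iN, h1, h2, h3, h4⟩ := hfld n hn
    exact_mod_cast h4
  have hS := AVG f C hCpos (fun M => (hC₀ f hf M).trans (mul_le_mul_of_nonneg_right hCC (Nat.cast_nonneg _))) A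
    (fun n hn => (hAm n hn).1)
  have hdA : ∀ p ∈ P, d p ∈ A := by
    intro p hp
    obtain ⟨i1, i2, i3, i4, i5, i6, i7, i8⟩ := hdf p hp
    rw [hA, Finset.mem_filter, Finset.mem_Icc]
    refine ⟨⟨i3, le_trans ?_ i6⟩, i2⟩
    exact Nat.le_mul_of_pos_right _ (by positivity)
  have hffx : ∀ p ∈ P, ff p ≤ x := by
    intro p hp
    obtain ⟨i1, i2, i3, i4, i5, i6, i7, i8⟩ := hdf p hp
    calc ff p ≤ ff p ^ 2 := Nat.le_self_pow (by norm_num) _
      _ ≤ d p * ff p ^ 2 := Nat.le_mul_of_pos_left _ i3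
      _ ≤ x := i6
  -- the primes of `g`
  have hlp : ∀ p ∈ P, ∀ l ∈ (ct p).primeFactors, T ≤ (l : ℝ) := by
    intro p hp l hl
    have h1 := Nat.prime_of_mem_primeFactors hl
    have h2 := Nat.dvd_of_mem_primeFactors hl
    obtain ⟨j1, j2, j3⟩ := hgdv p hp
    rw [hT]
    exact ((hPp p hp).2.2.2.2 l h1 ((Nat.cast_dvd_cast h2).trans j2)).le
  have hom : ∀ p ∈ P, (ct p).primeFactors.card ≤ m := by
    intro p hp
    obtain ⟨j1, j2, j3⟩ := hgdv p hp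
    obtain ⟨i1, i2, i3, i4, i5, i6, i7, i8⟩ := hdf p hp
    have h1 : ((ct p : ℕ) : ℝ) ≤ R := by
      rw [hR]
      exact_mod_cast (Nat.le_of_dvd (by omega) j1).trans (hffx p hp)
    have h2 := OMG (ct p) T R hT1 j3.ne' h1 (hlp p hp)
    have h3 : Real.log R / Real.log T = 4 / (3 * η) := by
      rw [hT, Real.log_rpow hRpos]
      have : Real.log R ≠ 0 := (Real.log_pos (by linarith)).ne'
      field_simp
    rw [h3] at h2
    exact_mod_cast h2.trans hm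
  have hlogb : 0 ≤ Real.logb 2 R := Real.logb_nonneg (by norm_num) hR1'
  have hLv : ∀ p ∈ P, (4 * Real.logb 2 R + 1) ^ (64 * (ct p).primeFactors.card) ≤ R ^ e := by
    intro p hp
    refine le_trans (pow_le_pow_right₀ (by linarith) ?_) (hR1 R b1)
    have := hom p hp
    omega
  have hLL : ∀ p ∈ P, (((Icc 1 x).filter (fun h => h.primeFactors ⊆ (ct p).primeFactors)).card : ℝ) ≤ R ^ e := by
    intro p hp
    refine le_trans ?_ (hLv p hp)
    have h1 : (((Icc 1 x).filter (fun h => h.primeFactors ⊆ (ct p).primeFactors)).card : ℝ) ≤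
        ((Nat.log 2 x : ℝ) + 1) ^ (ct p).primeFactors.card := by exact_mod_cast SMO (ct p) x
    refine h1.trans ?_
    have h2 : (Nat.log 2 x : ℝ) ≤ Real.logb 2 R := by
      rw [hR]
      exact_mod_cast Real.natLog_le_logb x 2
    calc ((Nat.log 2 x : ℝ) + 1) ^ (ct p).primeFactors.card ≤
          (4 * Real.logb 2 R + 1) ^ (ct p).primeFactors.card := pow_le_pow_left₀ (by positivity) (by linarith) _
      _ ≤ (4 * Real.logb 2 R + 1) ^ (64 * (ct p).primeFactors.card) := pow_le_pow_right₀ (by linarith) (by omega)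
  have h36 : ∀ p ∈ P, (36 : ℝ) ^ (ff p).primeFactors.card ≤ Cτ * R ^ e := by
    intro p hp
    obtain ⟨i1, i2, i3, i4, i5, i6, i7, i8⟩ := hdf p hp
    refine (hCτ (ff p) (by omega)).trans (mul_le_mul_of_nonneg_left ?_ (by linarith))
    refine Real.rpow_le_rpow (Nat.cast_nonneg _) ?_ he0.le
    rw [hR]
    exact_mod_cast hffx p hp
  have hRe1 : 1 ≤ R ^ e := Real.one_le_rpow hR1' he0.le
  obtain ⟨E, hE⟩ : ∃ E : ℝ, E = 182 * Cτ * (R ^ e * R ^ e) := ⟨_, rfl⟩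
  have hE0 : 0 ≤ E := by rw [hE]; positivity
  -- the fibres
  have hfib : ∀ d0 f0 g0 : ℕ, ∀ p ∈ P.filter (fun p => d p = d0 ∧ ff p = f0 ∧ ct p = g0),
      p ∈ P ∧ d p = d0 ∧ ff p = f0 ∧ ct p = g0 ∧ IsPt p ∧ p.D = (d0 : ℤ) * (f0 : ℤ) ^ 2 ∧ |p.n.norm| ≤ p.D ∧
        (p.D : ℝ) ≤ R := by
    intro d0 f0 g0 p hp
    rw [Finset.mem_filter] at hp
    obtain ⟨h1, h2, h3, h4⟩ := hp
    obtain ⟨q1, q2, q3, q4, q5⟩ := hPp p h1
    obtain ⟨i1, -⟩ := hdf p h1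
    rw [h2, h3] at i1
    exact ⟨h1, h2, h3, h4, q1, i1, q4, q3⟩
  have key : ∀ d0 ∈ A, ∀ f0 g0 : ℕ, ((P.filter (fun p => d p = d0 ∧ ff p = f0 ∧ ct p = g0)).card : ℝ) ≤
      E * (f (d0 : ℤ) : ℝ) * (1 + ((f0 / (g0 * f1 f0 g0) : ℕ) : ℝ) ^ 2) ∧
      (g0 = 1 → ((P.filter (fun p => d p = d0 ∧ ff p = f0 ∧ ct p = g0)).card : ℝ) ≤ E * (f (d0 : ℤ) : ℝ)) ∧
      (g0 = 1 → (f0 : ℝ) ≤ T → ((P.filter (fun p => d p = d0 ∧ ff p = f0 ∧ ct p = g0)).card : ℝ) ≤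
        E * ((f (d0 : ℤ) : ℝ) - 1)) := by
    intro d0 hd0 f0 g0
    have ha0 := ha d0 hd0
    rcases (P.filter (fun p => d p = d0 ∧ ff p = f0 ∧ ct p = g0)).eq_empty_or_nonempty with hem | ⟨p0, hp0⟩
    · rw [hem, Finset.card_empty, Nat.cast_zero]
      exact ⟨by positivity, fun _ => by positivity, fun _ _ => mul_nonneg hE0 (by linarith)⟩
    obtain ⟨r1, r2, r3, r4, r5, r6, r7, r8⟩ := hfib d0 f0 g0 p0 hp0
    have r9 := (hPp p0 r1).2.1
    obtain ⟨i1, i2, i3, i4, i5, i6, i7, i8⟩ := hdf p0 r1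
    obtain ⟨j1, j2, j3⟩ := hgdv p0 r1
    have l36 := h36 p0 r1
    have lLv := hLv p0 r1
    rw [r2] at i2 i3 i5 i7 i8
    rw [r3] at i4 j1 l36
    rw [r4] at j1 j3 lLv
    obtain ⟨K, iF, iN, h1, h2, h3, h4⟩ := hfld d0 hd0
    have h36' : (1 : ℝ) ≤ (36 : ℝ) ^ f0.primeFactors.card := one_le_pow₀ (by norm_num)
    obtain ⟨h, k1, k2, k3⟩ := F1L f0 g0 (by omega) j1
    have k4 : f0 / (g0 * f1 f0 g0) = h := Nat.div_eq_of_eq_mul_right (Nat.mul_pos j3 k3) k1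
    have k5 : (f0 : ℝ) / ((g0 : ℝ) * (f1 f0 g0 : ℝ)) = (h : ℝ) := by
      have k6 : (0 : ℝ) < (g0 : ℝ) * (f1 f0 g0 : ℝ) := by exact_mod_cast Nat.mul_pos j3 k3
      rw [div_eq_iff k6.ne', mul_comm]
      exact_mod_cast k1
    have c1 := hC (d0 : ℤ) f0 g0 i7 i8 i5 K h1 h2 R b7
      (P.filter (fun p => d p = d0 ∧ ff p = f0 ∧ ct p = g0))
      (fun p hp => by
        obtain ⟨s1, s2, s3, s4, s5, s6, s7, s8⟩ := hfib d0 f0 g0 p hp
        exact ⟨s5, s6, s4, s7, s8⟩)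
      (fun p hp q hq => hPk p (hfib d0 f0 g0 p hp).1 q (hfib d0 f0 g0 q hq).1)
    rw [← h3, k5] at c1
    refine ⟨?_, fun hg0 => ?_, fun hg0 hfT => ?_⟩
    · rw [k4]
      refine c1.trans ?_
      rw [hE]
      exact FIB1 _ _ _ _ _ _ (by linarith) h36' l36 (by positivity) lLv
    · subst hg0
      have k7 : h = 1 := by
        have k8 : h.primeFactors = ∅ := by
          rw [Nat.primeFactors_one] at k2
          exact Finset.subset_empty.mp k2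
        rcases Nat.primeFactors_eq_empty.mp k8 with k9 | k9
        · rw [k9, Nat.mul_zero] at k1
          omega
        · exact k9
      rw [k7, Nat.primeFactors_one, Finset.card_empty] at c1
      refine c1.trans ?_
      rw [hE]
      have k10 : 1 + (36 : ℝ) ^ f0.primeFactors.card * (1 + 180 * ((1 : ℕ) : ℝ) ^ 2) ≤
          182 * (36 : ℝ) ^ f0.primeFactors.card := by
        push_cast
        linarith
      calc (4 * Real.logb 2 R + 1) ^ (64 * 0) * ((f (d0 : ℤ) : ℝ) *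
            (1 + (36 : ℝ) ^ f0.primeFactors.card * (1 + 180 * ((1 : ℕ) : ℝ) ^ 2)))
          = (f (d0 : ℤ) : ℝ) * (1 + (36 : ℝ) ^ f0.primeFactors.card * (1 + 180 * ((1 : ℕ) : ℝ) ^ 2)) := by
            rw [Nat.mul_zero, pow_zero, one_mul]
        _ ≤ (f (d0 : ℤ) : ℝ) * (182 * (Cτ * R ^ e)) := by
            refine mul_le_mul_of_nonneg_left (k10.trans ?_) (by linarith)
            exact mul_le_mul_of_nonneg_left l36 (by norm_num)
        _ ≤ (f (d0 : ℤ) : ℝ) * (182 * (Cτ * R ^ e) * R ^ e) := by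
            refine mul_le_mul_of_nonneg_left ?_ (by linarith)
            exact le_mul_of_one_le_right (by positivity) hRe1
        _ = 182 * Cτ * (R ^ e * R ^ e) * (f (d0 : ℤ) : ℝ) := by ring
    · subst hg0
      have hf0pos : (0 : ℝ) < f0 := by exact_mod_cast i4
      have t1 : (f0 : ℝ) ^ 4 ≤ R ^ (3 * η) := by
        calc (f0 : ℝ) ^ 4 ≤ T ^ 4 := pow_le_pow_left₀ hf0pos.le hfT 4
          _ = R ^ (3 * η) := by
              rw [hT, ← Real.rpow_mul_natCast hRpos.le]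
              congr 1
              push_cast
              ring
      have t2 : 2001 * R ^ (3 * η) ≤ √R := by
        rw [Real.sqrt_eq_rpow, show (1 : ℝ) / 2 = (1 / 2 - 3 * η) + 3 * η by ring, Real.rpow_add hRpos]
        exact mul_le_mul_of_nonneg_right (hR5 R b6) (by positivity)
      have t3 : √R ≤ (d0 : ℝ) * (f0 : ℝ) ^ 2 := by
        refine r9.trans (le_of_eq ?_)
        rw [r6]
        push_cast
        ring
      have t4 : 2001 * (f0 : ℝ) ^ 2 ≤ d0 := by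
        have t5 : 2001 * (f0 : ℝ) ^ 2 * (f0 : ℝ) ^ 2 ≤ d0 * (f0 : ℝ) ^ 2 := by
          calc 2001 * (f0 : ℝ) ^ 2 * (f0 : ℝ) ^ 2 = 2001 * (f0 : ℝ) ^ 4 := by ring
            _ ≤ 2001 * R ^ (3 * η) := mul_le_mul_of_nonneg_left t1 (by norm_num)
            _ ≤ √R := t2
            _ ≤ _ := t3
        exact le_of_mul_le_mul_right t5 (by positivity)
      have t6 : 2000 * (f0 : ℤ) ^ 2 < (d0 : ℤ) := by
        have t7 : 2000 * (f0 : ℝ) ^ 2 < (d0 : ℝ) := by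
          have : (0 : ℝ) < (f0 : ℝ) ^ 2 := by positivity
          linarith
        exact_mod_cast t7
      have c2 := hG (d0 : ℤ) f0 i7 i8 i5 t6 K h1 h2
        (P.filter (fun p => d p = d0 ∧ ff p = f0 ∧ ct p = 1))
        (fun p hp => by
          obtain ⟨s1, s2, s3, s4, s5, s6, s7, s8⟩ := hfib d0 f0 1 p hp
          exact ⟨s5, s6, s4, s7⟩)
        (fun p hp q hq => hPk p (hfib d0 f0 1 p hp).1 q (hfib d0 f0 1 q hq).1)
      rw [← h3] at c2
      refine c2.trans ?_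
      rw [hE]
      have ha1 : 0 ≤ (f (d0 : ℤ) : ℝ) - 1 := by linarith
      calc ((f (d0 : ℤ) : ℝ) - 1) * (1 + 181 * (36 : ℝ) ^ f0.primeFactors.card)
          ≤ ((f (d0 : ℤ) : ℝ) - 1) * (182 * (Cτ * R ^ e)) := by
            refine mul_le_mul_of_nonneg_left ?_ ha1
            linarith
        _ ≤ ((f (d0 : ℤ) : ℝ) - 1) * (182 * (Cτ * R ^ e) * R ^ e) := by
            refine mul_le_mul_of_nonneg_left ?_ ha1
            exact le_mul_of_one_le_right (by positivity) hRe1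
        _ = 182 * Cτ * (R ^ e * R ^ e) * ((f (d0 : ℤ) : ℝ) - 1) := by ring
  -- the summation
  have main := SUMA P d ff ct (fun f0 g0 => f0 / (g0 * f1 f0 g0)) (fun n => (f (n : ℤ) : ℝ)) A x (2 * C) E T T
    (R ^ e) (by positivity) hE0 hT1.le hT1.le (by positivity) ha hS hdA
    (fun p hp => (hdf p hp).2.2.1) (fun p hp => (hdf p hp).2.2.2.1) (fun p hp => (hdf p hp).2.2.2.2.2.1)
    (fun p hp h1 => by
      obtain ⟨l, hl1, hl2⟩ := Nat.exists_prime_and_dvd h1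
      have h2 := hlp p hp l (Nat.mem_primeFactors.mpr ⟨hl1, hl2, (hgdv p hp).2.2.ne'⟩)
      refine h2.trans ?_
      exact_mod_cast Nat.le_of_dvd (hgdv p hp).2.2 hl2)
    (fun p hp => by
      obtain ⟨h, k1, k2, k3⟩ := F1L (ff p) (ct p) (by have := (hdf p hp).2.2.2.1; omega) (hgdv p hp).1
      have k4 : ff p / (ct p * f1 (ff p) (ct p)) = h :=
        Nat.div_eq_of_eq_mul_right (Nat.mul_pos (hgdv p hp).2.2 k3) k1
      show ct p * (ff p / (ct p * f1 (ff p) (ct p))) ∣ ff p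
      rw [k4]
      exact ⟨f1 (ff p) (ct p), k1.trans (by ring)⟩)
    (fun p hp => by
      obtain ⟨h, k1, k2, k3⟩ := F1L (ff p) (ct p) (by have := (hdf p hp).2.2.2.1; omega) (hgdv p hp).1
      have k4 : ff p / (ct p * f1 (ff p) (ct p)) = h :=
        Nat.div_eq_of_eq_mul_right (Nat.mul_pos (hgdv p hp).2.2 k3) k1
      show (ff p / (ct p * f1 (ff p) (ct p))).primeFactors ⊆ (ct p).primeFactors
      rw [k4]
      exact k2)
    hLL
    (fun d0 hd0 f0 g0 _ => (key d0 hd0 f0 g0).1)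
    (fun d0 hd0 f0 => (key d0 hd0 f0 1).2.1 rfl)
    (fun d0 hd0 f0 hf0 => (key d0 hd0 f0 1).2.2 rfl hf0)
  rw [← hR] at main
  obtain ⟨SA, hSA⟩ : ∃ SA : ℝ, SA = ∑ n ∈ A, ((f (n : ℤ) : ℝ) - 1) := ⟨_, rfl⟩
  rw [← hSA] at main
  have hSA0 : 0 ≤ SA := by
    rw [hSA]
    exact Finset.sum_nonneg fun n hn => by linarith [ha n hn]
  have hSAle : SA ≤ ∑ D ∈ FDs N, ((f D : ℝ) - 1) := by
    rw [hSA]
    refine SZN A N (fun D => (f D : ℝ) - 1) hAm fun D hD => ?_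
    rw [mem_FDs] at hD
    obtain ⟨K, iF, iN, h1, h2, h3, h4⟩ := FLDx f hf D hD.2 hD.1.1
    have : (1 : ℝ) ≤ (f D : ℝ) := by exact_mod_cast h4
    show 0 ≤ (f D : ℝ) - 1
    linarith
  have hlow : 2 * R ^ (1 - 2 * η) ≤ SA := by
    obtain ⟨W, hW⟩ : ∃ W : ℝ, W = R ^ (1 - 7 / 10 * η) := ⟨_, rfl⟩
    have hW0 : 0 < W := by rw [hW]; positivity
    have hTpos : 0 < T := by linarith
    have hRT : R / T = R ^ (1 - 3 / 4 * η) := by
      rw [hT, Real.rpow_sub hRpos, Real.rpow_one]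
    have w1 : W = R ^ (η / 20 - 3 * e) * (R ^ e * R ^ e * R ^ e * R ^ (1 - 3 / 4 * η)) := by
      rw [hW, ← Real.rpow_add hRpos, ← Real.rpow_add hRpos, ← Real.rpow_add hRpos, ← Real.rpow_add hRpos]
      congr 1
      ring
    have w2 : W = R ^ (η / 20 - 2 * e) * (R ^ e * R ^ e * R ^ (1 - 3 / 4 * η)) := by
      rw [hW, ← Real.rpow_add hRpos, ← Real.rpow_add hRpos, ← Real.rpow_add hRpos]
      congr 1
      ring
    have w3 : W = R ^ (27 / 50 * η) * (T * (R ^ e * R ^ e) * R ^ (1 - 2 * η)) := by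
      rw [hW, hT, ← Real.rpow_add hRpos, ← Real.rpow_add hRpos, ← Real.rpow_add hRpos, ← Real.rpow_add hRpos]
      congr 1
      rw [he]
      ring
    have m1 : 8 * E * (2 * C) * R ^ e * R / T ≤ W / 4 := by
      have q1 : 8 * E * (2 * C) * R ^ e * R / T =
          (8 * (182 * Cτ) * (2 * C)) * (R ^ e * R ^ e * R ^ e * R ^ (1 - 3 / 4 * η)) := by
        rw [← hRT, hE]
        ring
      have q2 := mul_le_mul_of_nonneg_right (hR2 R b3)
        (show 0 ≤ R ^ e * R ^ e * R ^ e * R ^ (1 - 3 / 4 * η) by positivity)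
      rw [← w1] at q2
      rw [q1]
      linarith
    have m2 : 2 * E * (2 * C) * R / T ≤ W / 4 := by
      have q1 : 2 * E * (2 * C) * R / T =
          (2 * (182 * Cτ) * (2 * C)) * (R ^ e * R ^ e * R ^ (1 - 3 / 4 * η)) := by
        rw [← hRT, hE]
        ring
      have q2 := mul_le_mul_of_nonneg_right (hR3 R b4)
        (show 0 ≤ R ^ e * R ^ e * R ^ (1 - 3 / 4 * η) by positivity)
      rw [← w2] at q2
      rw [q1]
      linarith
    have m3 : T * E * (2 * R ^ (1 - 2 * η)) ≤ W / 2 := by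
      have q2 := mul_le_mul_of_nonneg_right (hR4 R b5)
        (show 0 ≤ T * (R ^ e * R ^ e) * R ^ (1 - 2 * η) by positivity)
      rw [← w3] at q2
      have q3 : T * E * (2 * R ^ (1 - 2 * η)) = 364 * Cτ * (T * (R ^ e * R ^ e) * R ^ (1 - 2 * η)) := by
        rw [hE]
        ring
      rw [q3]
      linarith
    by_contra hcon
    push Not at hcon
    have hE1 : 0 < E := by
      rw [hE]
      have : 0 < Cτ := by linarith
      positivity
    have m4 : T * E * SA < T * E * (2 * R ^ (1 - 2 * η)) := mul_lt_mul_of_pos_left hcon (by positivity)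
    rw [← hW] at hPc
    linarith
  show (N : ℝ) ^ (1 - ε) ≤ ∑ D ∈ FDs N, ((f D : ℝ) - 1)
  refine le_trans ?_ (hlow.trans hSAle)
  have hN1' : (1 : ℝ) ≤ N := by rw [hNR]; linarith
  calc (N : ℝ) ^ (1 - ε) ≤ (N : ℝ) ^ (1 - 2 * η) := Real.rpow_le_rpow_of_exponent_le hN1' (by linarith)
    _ ≤ (2 * R) ^ (1 - 2 * η) := Real.rpow_le_rpow (by linarith) (by rw [hNR]; linarith) (by linarith)
    _ = (2 : ℝ) ^ (1 - 2 * η) * R ^ (1 - 2 * η) := Real.mul_rpow (by norm_num) hRpos.le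
    _ ≤ 2 * R ^ (1 - 2 * η) := by
        refine mul_le_mul_of_nonneg_right ?_ (by positivity)
        calc (2 : ℝ) ^ (1 - 2 * η) ≤ (2 : ℝ) ^ (1 : ℝ) :=
              Real.rpow_le_rpow_of_exponent_le (by norm_num) (by linarith)
          _ = 2 := Real.rpow_one 2

end Pool.Agent.RF
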