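import Mathlib

set_option autoImplicit false

/-!
# RF (MP_16912e_nt), final sums: elementary counting lemmas
-/

namespace Pool.Agent.RF

open Finset

/-- integers composed of the primes of `g` -/
theorem SMO (g x : ℕ) :
    ((Icc 1 x).filter (fun h => h.primeFactors ⊆ g.primeFactors)).card ≤
      (Nat.log 2 x + 1) ^ g.primeFactors.card := by
  classical
  have h1 : ((Icc 1 x).filter (fun h => h.primeFactors ⊆ g.primeFactors)).card ≤
      (Finset.pi g.primeFactors (fun _ => Finset.range (Nat.log 2 x + 1))).card := by
    refine Finset.card_le_card_of_injOn (fun h l _ => h.factorization l) ?_ ?_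
    · intro h hh
      rw [Finset.mem_coe, Finset.mem_filter, Finset.mem_Icc] at hh
      rw [Finset.mem_coe, Finset.mem_pi]
      intro l hl
      rw [Finset.mem_range]
      have hl' := Nat.prime_of_mem_primeFactors hl
      have h2 : h ≠ 0 := by omega
      have h3 : l ^ h.factorization l ∣ h := Nat.ordProj_dvd h l
      have h4 : 2 ^ h.factorization l ≤ x :=
        le_trans (Nat.pow_le_pow_left hl'.two_le _) (le_trans (Nat.le_of_dvd (by omega) h3) hh.1.2)
      have h5 := Nat.le_log_of_pow_le (by norm_num : 1 < 2) h4
      show h.factorization l < _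
      omega
    · intro h hh h' hh' he
      rw [Finset.mem_coe, Finset.mem_filter, Finset.mem_Icc] at hh hh'
      refine Nat.eq_of_factorization_eq (by omega) (by omega) fun l => ?_
      by_cases hl : l ∈ g.primeFactors
      · exact congrFun (congrFun he l) hl
      · have k1 : ∀ m : ℕ, m.primeFactors ⊆ g.primeFactors → m.factorization l = 0 := by
          intro m hm
          rw [← Finsupp.notMem_support_iff, Nat.support_factorization]
          exact fun h => hl (hm h)
        rw [k1 h hh.2, k1 h' hh'.2]
  refine h1.trans (le_of_eq ?_)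
  rw [Finset.card_pi, Finset.prod_const, Finset.card_range]

/-- a number with large primes has few primes -/
theorem OMG (g : ℕ) (T N : ℝ) (hT : 1 < T) (hg : g ≠ 0) (hN : (g : ℝ) ≤ N)
    (hp : ∀ l ∈ g.primeFactors, T ≤ (l : ℝ)) :
    (g.primeFactors.card : ℝ) ≤ Real.log N / Real.log T := by
  have h1 : T ^ g.primeFactors.card ≤ (g : ℝ) := by
    have h2 : ((∏ l ∈ g.primeFactors, l : ℕ) : ℝ) ≤ g := by
      exact_mod_cast Nat.le_of_dvd (Nat.pos_of_ne_zero hg) (Nat.prod_primeFactors_dvd g)
    refine le_trans ?_ h2
    push_cast
    rw [← Finset.prod_const]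
    exact Finset.prod_le_prod (fun _ _ => by linarith) hp
  have hT' : 0 < Real.log T := Real.log_pos hT
  rw [le_div_iff₀ hT']
  have h3 := Real.log_le_log (by positivity) (h1.trans hN)
  rwa [Real.log_pow] at h3

end Pool.Agent.RF
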