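import Pool.Agent.helper6.RF.FIN

set_option autoImplicit false

/-!
# RF (MP_16912e_nt), stage 2, final sums: the abstract summation with weights
-/

namespace Pool.Agent.RF

open Finset

/-- tails of `∑ w(m) / m²` for `w(m) ≤ C m^(1/100)` -/
theorem TAILW : ∃ S : ℝ, 0 ≤ S ∧ ∀ (C : ℝ) (w : ℕ → ℝ) (T : ℝ) (x : ℕ), 0 ≤ C →
    (∀ m : ℕ, 1 ≤ m → 0 ≤ w m ∧ w m ≤ C * (m : ℝ) ^ (1 / 100 : ℝ)) → 1 ≤ T →
    ∑ m ∈ (Icc 1 x).filter (fun m : ℕ => T ≤ (m : ℝ)), w m * ((m : ℝ) ^ 2)⁻¹ ≤ C * S * T ^ (-(98 / 100) : ℝ) := by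
  have hs : Summable (fun n : ℕ => ((n : ℝ) ^ (101 / 100 : ℝ))⁻¹) :=
    Real.summable_nat_rpow_inv.mpr (by norm_num)
  refine ⟨∑' n : ℕ, ((n : ℝ) ^ (101 / 100 : ℝ))⁻¹, tsum_nonneg fun n => by positivity, ?_⟩
  intro C w T x hC hw hT
  have hT0 : 0 < T := by linarith
  have h1 : ∀ m ∈ (Icc 1 x).filter (fun m : ℕ => T ≤ (m : ℝ)), w m * ((m : ℝ) ^ 2)⁻¹ ≤
      C * T ^ (-(98 / 100) : ℝ) * ((m : ℝ) ^ (101 / 100 : ℝ))⁻¹ := by
    intro m hm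
    rw [Finset.mem_filter, Finset.mem_Icc] at hm
    have hm0 : (0 : ℝ) < m := by exact_mod_cast hm.1.1
    have h2 : (m : ℝ) ^ (1 / 100 : ℝ) * ((m : ℝ) ^ 2)⁻¹ =
        (m : ℝ) ^ (-(98 / 100) : ℝ) * ((m : ℝ) ^ (101 / 100 : ℝ))⁻¹ := by
      rw [← Real.rpow_natCast, ← Real.rpow_neg hm0.le, ← Real.rpow_neg hm0.le, ← Real.rpow_add hm0, ← Real.rpow_add hm0]
      congr 1
      norm_num
    have h3 : (m : ℝ) ^ (-(98 / 100) : ℝ) ≤ T ^ (-(98 / 100) : ℝ) :=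
      Real.rpow_le_rpow_of_nonpos hT0 hm.2 (by norm_num)
    calc w m * ((m : ℝ) ^ 2)⁻¹ ≤ C * (m : ℝ) ^ (1 / 100 : ℝ) * ((m : ℝ) ^ 2)⁻¹ :=
          mul_le_mul_of_nonneg_right (hw m hm.1.1).2 (by positivity)
      _ = C * ((m : ℝ) ^ (-(98 / 100) : ℝ) * ((m : ℝ) ^ (101 / 100 : ℝ))⁻¹) := by rw [mul_assoc, h2]
      _ ≤ C * (T ^ (-(98 / 100) : ℝ) * ((m : ℝ) ^ (101 / 100 : ℝ))⁻¹) :=
          mul_le_mul_of_nonneg_left (mul_le_mul_of_nonneg_right h3 (by positivity)) hC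
      _ = C * T ^ (-(98 / 100) : ℝ) * ((m : ℝ) ^ (101 / 100 : ℝ))⁻¹ := by ring
  refine (Finset.sum_le_sum h1).trans ?_
  rw [← Finset.mul_sum]
  calc C * T ^ (-(98 / 100) : ℝ) * ∑ m ∈ (Icc 1 x).filter (fun m : ℕ => T ≤ (m : ℝ)), ((m : ℝ) ^ (101 / 100 : ℝ))⁻¹
      ≤ C * T ^ (-(98 / 100) : ℝ) * ∑' n : ℕ, ((n : ℝ) ^ (101 / 100 : ℝ))⁻¹ :=
        mul_le_mul_of_nonneg_left (hs.sum_le_tsum _ fun n _ => by positivity) (by positivity)
    _ = _ := by ring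

/-- the bad points of given `g`, with weights `v m`, `f = g h m` -/
theorem SUMB2 {ι : Type} (P : Finset ι) (d f : ι → ℕ) (hf : ℕ → ℕ) (H : Finset ℕ) (v : ℕ → ℝ) (a : ℕ → ℝ) (A : Finset ℕ)
    (x g0 : ℕ) (C E V : ℝ) (hC : 0 ≤ C) (hE : 0 ≤ E) (hg0 : 1 ≤ g0)
    (ha : ∀ n ∈ A, 1 ≤ a n)
    (hS : ∀ y : ℝ, 0 ≤ y → ∑ n ∈ A.filter (fun n : ℕ => (n : ℝ) ≤ y), a n ≤ C * y)
    (hdA : ∀ p ∈ P, d p ∈ A) (hd : ∀ p ∈ P, 1 ≤ d p) (hf1 : ∀ p ∈ P, 1 ≤ f p)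
    (hx : ∀ p ∈ P, d p * f p ^ 2 ≤ x)
    (hgh : ∀ p ∈ P, g0 * hf (f p) ∣ f p)
    (hhg : ∀ p ∈ P, hf (f p) ∈ H)
    (hv : ∀ m, 0 ≤ v m) (hV : ∑ m ∈ Icc 1 x, v m * ((m : ℝ) ^ 2)⁻¹ ≤ V)
    (hc : ∀ d0 ∈ A, ∀ f0 : ℕ, ((P.filter (fun p => d p = d0 ∧ f p = f0)).card : ℝ) ≤
      E * v (f0 / (g0 * hf f0)) * a d0 * (1 + (hf f0 : ℝ) ^ 2)) :
    (P.card : ℝ) ≤ 2 * E * C * V * H.card * x * ((g0 : ℝ) ^ 2)⁻¹ := by
  classical
  have hfx : ∀ p ∈ P, f p ≤ x := by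
    intro p hp
    have h1 := hx p hp
    have h2 := hd p hp
    have h3 := hf1 p hp
    have h4 : f p ≤ f p ^ 2 := Nat.le_self_pow (by norm_num) _
    calc f p ≤ f p ^ 2 := h4
      _ ≤ d p * f p ^ 2 := Nat.le_mul_of_pos_left _ h2
      _ ≤ x := h1
  have hh1 : ∀ p ∈ P, 1 ≤ hf (f p) := by
    intro p hp
    have h1 := hgh p hp
    have h2 := hf1 p hp
    rcases Nat.eq_zero_or_pos (hf (f p)) with h | h
    · rw [h, Nat.mul_zero, zero_dvd_iff] at h1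
      omega
    · exact h
  have hg0' : (0 : ℝ) < g0 := by exact_mod_cast hg0
  have hV0 : 0 ≤ V := le_trans (Finset.sum_nonneg fun m _ => mul_nonneg (hv m) (by positivity)) hV
  -- fixed `h`, `m`
  have k1 : ∀ h0 ∈ H, 1 ≤ h0 → ∀ m0 ∈ Icc 1 x,
      (((P.filter (fun p => hf (f p) = h0)).filter (fun p => f p / (g0 * hf (f p)) = m0)).card : ℝ) ≤
        2 * E * C * x * ((g0 : ℝ) ^ 2)⁻¹ * (v m0 * ((m0 : ℝ) ^ 2)⁻¹) := by
    intro h0 hh0 hh01 m0 hm0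
    rw [Finset.mem_Icc] at hm0
    have hh0' : (1 : ℝ) ≤ h0 := by exact_mod_cast hh01
    have hm0' : (1 : ℝ) ≤ m0 := by exact_mod_cast hm0.1
    set Q := (P.filter (fun p => hf (f p) = h0)).filter (fun p => f p / (g0 * hf (f p)) = m0) with hQ
    have hQf : ∀ p ∈ Q, p ∈ P ∧ hf (f p) = h0 ∧ f p = g0 * h0 * m0 := by
      intro p hp
      rw [hQ, Finset.mem_filter, Finset.mem_filter] at hp
      refine ⟨hp.1.1, hp.1.2, ?_⟩
      have h1 := hgh p hp.1.1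
      have h2 := hp.2
      rw [hp.1.2] at h1 h2
      rw [← h2]
      exact (Nat.mul_div_cancel' h1).symm
    set y : ℝ := x / ((g0 : ℝ) * h0 * m0) ^ 2 with hy
    have hy0 : 0 ≤ y := by positivity
    have k2 : (Q.card : ℝ) ≤ ∑ n ∈ A.filter (fun n : ℕ => (n : ℝ) ≤ y), E * v m0 * a n * (1 + (h0 : ℝ) ^ 2) := by
      refine card_fib Q d _ _ ?_ ?_
      · intro p hp
        obtain ⟨h1, h2, h3⟩ := hQf p hp
        rw [Finset.mem_filter]
        refine ⟨hdA p h1, ?_⟩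
        rw [hy, le_div_iff₀ (by positivity)]
        have h4 := hx p h1
        rw [h3] at h4
        exact_mod_cast h4
      · intro n hn
        rw [Finset.mem_filter] at hn
        rcases (Q.filter (fun p => d p = n)).eq_empty_or_nonempty with he | ⟨p, hp⟩
        · rw [he, Finset.card_empty, Nat.cast_zero]
          have := ha n hn.1
          have := hv m0
          positivity
        · rw [Finset.mem_filter] at hp
          obtain ⟨h1, h2, h3⟩ := hQf p hp.1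
          have h5 := hc n hn.1 (g0 * h0 * m0)
          have h51 : g0 * h0 * m0 / (g0 * hf (g0 * h0 * m0)) = m0 := by
            rw [← h3, h2, h3]
            exact Nat.mul_div_cancel_left _ (Nat.mul_pos hg0 hh01)
          rw [h51] at h5
          rw [← h3, h2] at h5
          refine le_trans ?_ h5
          have h6 : Q.filter (fun p => d p = n) ⊆ P.filter (fun q => d q = n ∧ f q = f p) := by
            intro q hq
            rw [Finset.mem_filter] at hq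
            obtain ⟨i1, i2, i3⟩ := hQf q hq.1
            rw [Finset.mem_filter]
            exact ⟨i1, hq.2, by rw [i3, h3]⟩
          exact_mod_cast Finset.card_le_card h6
    refine k2.trans ?_
    have k3 : ∑ n ∈ A.filter (fun n : ℕ => (n : ℝ) ≤ y), E * v m0 * a n * (1 + (h0 : ℝ) ^ 2) =
        E * v m0 * (1 + (h0 : ℝ) ^ 2) * ∑ n ∈ A.filter (fun n : ℕ => (n : ℝ) ≤ y), a n := by
      rw [Finset.mul_sum]
      exact Finset.sum_congr rfl fun _ _ => by ring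
    rw [k3]
    have hvm := hv m0
    calc E * v m0 * (1 + (h0 : ℝ) ^ 2) * ∑ n ∈ A.filter (fun n : ℕ => (n : ℝ) ≤ y), a n
        ≤ E * v m0 * (1 + (h0 : ℝ) ^ 2) * (C * y) :=
          mul_le_mul_of_nonneg_left (hS y hy0) (by positivity)
      _ ≤ E * v m0 * (2 * (h0 : ℝ) ^ 2) * (C * y) := by
          have : (1 : ℝ) + (h0 : ℝ) ^ 2 ≤ 2 * (h0 : ℝ) ^ 2 := by nlinarith
          have h7 : 0 ≤ C * y := by positivity
          exact mul_le_mul_of_nonneg_right (mul_le_mul_of_nonneg_left this (by positivity)) h7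
      _ = 2 * E * C * x * ((g0 : ℝ) ^ 2)⁻¹ * (v m0 * ((m0 : ℝ) ^ 2)⁻¹) := by
          rw [hy]
          field_simp
  have k4 : ∀ h0 ∈ H,
      ((P.filter (fun p => hf (f p) = h0)).card : ℝ) ≤ 2 * E * C * x * ((g0 : ℝ) ^ 2)⁻¹ * V := by
    intro h0 hh0
    rcases (P.filter (fun p => hf (f p) = h0)).eq_empty_or_nonempty with he | ⟨p0, hp0⟩
    · rw [he, Finset.card_empty, Nat.cast_zero]
      positivity
    have hh01 : 1 ≤ h0 := by
      rw [Finset.mem_filter] at hp0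
      rw [← hp0.2]
      exact hh1 p0 hp0.1
    have h1 : ((P.filter (fun p => hf (f p) = h0)).card : ℝ) ≤
        ∑ m0 ∈ Icc 1 x, 2 * E * C * x * ((g0 : ℝ) ^ 2)⁻¹ * (v m0 * ((m0 : ℝ) ^ 2)⁻¹) := by
      refine card_fib _ (fun p => f p / (g0 * hf (f p))) _ _ ?_ (k1 h0 hh0 hh01)
      intro p hp
      rw [Finset.mem_filter] at hp
      have h2 := hgh p hp.1
      have h3 := hf1 p hp.1
      have h4 := hfx p hp.1
      rw [Finset.mem_Icc]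
      refine ⟨Nat.div_pos (Nat.le_of_dvd h3 h2) ?_, (Nat.div_le_self _ _).trans h4⟩
      exact Nat.mul_pos hg0 (hh1 p hp.1)
    refine h1.trans ?_
    rw [← Finset.mul_sum]
    exact mul_le_mul_of_nonneg_left hV (by positivity)
  have k5 : (P.card : ℝ) ≤ ∑ h0 ∈ H, 2 * E * C * x * ((g0 : ℝ) ^ 2)⁻¹ * V :=
    card_fib P (fun p => hf (f p)) _ _ hhg k4
  refine k5.trans (le_of_eq ?_)
  rw [Finset.sum_const, nsmul_eq_mul]
  ring

/-- the good points, `f` large, with weights -/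
theorem SUMG2 {ι : Type} (P : Finset ι) (d f : ι → ℕ) (v : ℕ → ℝ) (a : ℕ → ℝ) (A : Finset ℕ)
    (x : ℕ) (C E F1 V : ℝ) (hC : 0 ≤ C) (hE : 0 ≤ E) (hF : 1 ≤ F1)
    (hS : ∀ y : ℝ, 0 ≤ y → ∑ n ∈ A.filter (fun n : ℕ => (n : ℝ) ≤ y), a n ≤ C * y)
    (hdA : ∀ p ∈ P, d p ∈ A) (hd : ∀ p ∈ P, 1 ≤ d p) (hf1 : ∀ p ∈ P, F1 ≤ (f p : ℝ))
    (hx : ∀ p ∈ P, d p * f p ^ 2 ≤ x)
    (hv : ∀ m, 0 ≤ v m)
    (hV : ∑ m ∈ (Icc 1 x).filter (fun g : ℕ => F1 ≤ (g : ℝ)), v m * ((m : ℝ) ^ 2)⁻¹ ≤ V)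
    (hc : ∀ d0 ∈ A, ∀ f0 : ℕ, ((P.filter (fun p => d p = d0 ∧ f p = f0)).card : ℝ) ≤ E * v f0 * a d0) :
    (P.card : ℝ) ≤ E * C * V * x := by
  classical
  have hf0 : ∀ p ∈ P, 1 ≤ f p := by
    intro p hp
    have := hf1 p hp
    exact_mod_cast hF.trans this
  have hfx : ∀ p ∈ P, f p ≤ x := by
    intro p hp
    have h1 := hx p hp
    have h2 := hd p hp
    have h4 : f p ≤ f p ^ 2 := Nat.le_self_pow (by norm_num) _
    calc f p ≤ f p ^ 2 := h4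
      _ ≤ d p * f p ^ 2 := Nat.le_mul_of_pos_left _ h2
      _ ≤ x := h1
  have k1 : ∀ f0 ∈ (Icc 1 x).filter (fun g : ℕ => F1 ≤ (g : ℝ)), ((P.filter (fun p => f p = f0)).card : ℝ) ≤
      E * C * x * (v f0 * ((f0 : ℝ) ^ 2)⁻¹) := by
    intro f0 hf0'
    rw [Finset.mem_filter, Finset.mem_Icc] at hf0'
    have hf0'' : (1 : ℝ) ≤ f0 := by exact_mod_cast hf0'.1.1
    set y : ℝ := x / (f0 : ℝ) ^ 2 with hy
    have hy0 : 0 ≤ y := by positivity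
    have k2 : ((P.filter (fun p => f p = f0)).card : ℝ) ≤
        ∑ n ∈ A.filter (fun n : ℕ => (n : ℝ) ≤ y), E * v f0 * a n := by
      refine card_fib _ d _ _ ?_ ?_
      · intro p hp
        rw [Finset.mem_filter] at hp ⊢
        refine ⟨hdA p hp.1, ?_⟩
        rw [hy, le_div_iff₀ (by positivity)]
        have h4 := hx p hp.1
        rw [hp.2] at h4
        exact_mod_cast h4
      · intro n hn
        refine le_trans ?_ (hc n (Finset.mem_filter.mp hn).1 f0)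
        have h6 : (P.filter (fun p => f p = f0)).filter (fun p => d p = n) ⊆
            P.filter (fun q => d q = n ∧ f q = f0) := by
          intro q hq
          rw [Finset.mem_filter, Finset.mem_filter] at hq
          rw [Finset.mem_filter]
          exact ⟨hq.1.1, hq.2, hq.1.2⟩
        exact_mod_cast Finset.card_le_card h6
    refine k2.trans ?_
    rw [← Finset.mul_sum]
    calc E * v f0 * ∑ n ∈ A.filter (fun n : ℕ => (n : ℝ) ≤ y), a n ≤ E * v f0 * (C * y) :=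
          mul_le_mul_of_nonneg_left (hS y hy0) (mul_nonneg hE (hv f0))
      _ = E * C * x * (v f0 * ((f0 : ℝ) ^ 2)⁻¹) := by
          rw [hy]
          field_simp
  have k5 : (P.card : ℝ) ≤ ∑ f0 ∈ (Icc 1 x).filter (fun g : ℕ => F1 ≤ (g : ℝ)),
      E * C * x * (v f0 * ((f0 : ℝ) ^ 2)⁻¹) := by
    refine card_fib P f _ _ ?_ k1
    intro p hp
    rw [Finset.mem_filter, Finset.mem_Icc]
    exact ⟨⟨hf0 p hp, hfx p hp⟩, hf1 p hp⟩
  refine k5.trans ?_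
  rw [← Finset.mul_sum]
  calc E * C * x * ∑ f0 ∈ (Icc 1 x).filter (fun g : ℕ => F1 ≤ (g : ℝ)), v f0 * ((f0 : ℝ) ^ 2)⁻¹
      ≤ E * C * x * V := mul_le_mul_of_nonneg_left hV (by positivity)
    _ = E * C * V * x := by ring

end Pool.Agent.RF
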