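import Pool.Agent.helper13.RF.SpecU

set_option autoImplicit false

namespace Pool.Agent.RF

open NumberField

/-- exact exponents exist -/
theorem ULP_exp (hWEU : WEU_stmt) (π x : OO) (hπ : Prime π) (hx : x ≠ 0) : ∃ c : ℕ, π ^ c ∣ x ∧ ¬ π ^ (c + 1) ∣ x := by
  have := hWEU.1
  have := hWEU.2
  have hfin : FiniteMultiplicity π x := FiniteMultiplicity.of_not_isUnit hπ.not_isUnit hx
  classical
  have hex : ∃ n : ℕ, ¬ π ^ (n + 1) ∣ x := hfin
  refine ⟨Nat.find hex, ?_, Nat.find_spec hex⟩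
  rcases Nat.eq_zero_or_pos (Nat.find hex) with h | h
  · rw [h, pow_zero]
    exact one_dvd _
  · have h1 := Nat.find_min hex (m := Nat.find hex - 1) (by omega)
    rw [not_not, Nat.sub_add_cancel h] at h1
    exact h1

theorem ULP (hWEU : WEU_stmt) (h1 : ULQ_stmt) (h2 : UNU_stmt) (h3 : UTI_stmt) (h4 : UCO_stmt) (h5 : YL0_stmt)
    (h6 : YLP_stmt) (h7 : YVM_stmt) : ULP_stmt := by
  intro D₀ F _ _ C f hsq hD0 S hS hV o ho z hz l π hl hlf hπ hπl hπ2 hπint
  have hdom := hWEU.1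
  obtain ⟨ho2, hoD⟩ := hS o ho
  have hf0 : f ≠ 0 := by
    rintro rfl
    have := ho2.D0
    rw [hoD] at this
    simp at this
  have hD20 := ho2.D20
  -- `l ≠ 2, 5`
  obtain ⟨m, hm⟩ := hlf
  have hl2 : l ≠ 2 := by
    rintro rfl
    rw [hoD, hm] at hD20
    push_cast at hD20
    have e : D₀ * (2 * (m : ℤ)) ^ 2 = 4 * (D₀ * (m : ℤ) ^ 2) := by ring
    rw [e] at hD20
    omega
  have hl5 : l ≠ 5 := by
    rintro rfl
    rw [hoD, hm] at hD20
    push_cast at hD20
    have e : D₀ * (5 * (m : ℤ)) ^ 2 = 25 * (D₀ * (m : ℤ) ^ 2) := by ring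
    rw [e] at hD20
    omega
  have hlf : l ∣ f := ⟨m, hm⟩
  have hp2 : ¬ π ∣ (2 : OO) := by
    intro hd
    have h8 := hπint 2 (by exact_mod_cast hd)
    have h9 : l ∣ 2 := by exact_mod_cast h8
    exact hl2 ((Nat.prime_dvd_prime_iff_eq hl Nat.prime_two).mp h9)
  have hp5 : ¬ π ∣ (5 : OO) := by
    intro hd
    have h8 := hπint 5 (by exact_mod_cast hd)
    have h9 : l ∣ 5 := by exact_mod_cast h8
    exact hl5 ((Nat.prime_dvd_prime_iff_eq hl Nat.prime_five).mp h9)
  have hpr5 : ¬ π ∣ r5 := by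
    intro hd
    refine hp5 ?_
    have h8 : r5 * r5 = (5 : OO) := by
      ext <;> rfl
    rw [← h8]
    exact Dvd.dvd.mul_right hd _
  have hp10 : ¬ π ∣ (10 : OO) := by
    intro hd
    have h8 : (10 : OO) = 2 * 5 := by norm_num
    rw [h8] at hd
    rcases hπ.dvd_or_dvd hd with h | h
    · exact hp2 h
    · exact hp5 h
  have hp100 : ¬ π ∣ (100 : OO) := by
    intro hd
    have h8 : (100 : OO) = 10 * 10 := by norm_num
    rw [h8] at hd
    rcases hπ.dvd_or_dvd hd with h | h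
    · exact hp10 h
    · exact hp10 h
  obtain ⟨v1, v2, v3⟩ := h7 π hπ
  -- `n ≠ 0`
  have hn0 : ∀ p : Pt, IsPt2 p → p.n ≠ 0 := by
    intro p hp hn
    have h8 := hp.n1
    rw [hn, zero_sub, dvd_neg] at h8
    obtain ⟨y, hy⟩ := h8
    have h9 : (1 : ℤ) = 25 * y.re := by
      have h10 := congrArg QuadraticAlgebra.re hy
      have h11 : (25 * y : OO) = (25 : ℤ) • y := by
        rw [zsmul_eq_mul]
        norm_num
      rw [h11] at h10
      exact h10
    omega
  have hJ : 1 ≤ f.factorization l := (hl.dvd_iff_one_le_factorization hf0).mp hlf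
  obtain ⟨c, hc1, hc2⟩ := ULP_exp hWEU π o.n hπ (hn0 o ho2)
  rcases le_or_gt ((f.factorization l + 14) / 15) c with htc | htc
  · -- large exponent
    have hq : ∀ q ∈ S, π ^ ((f.factorization l + 14) / 15) ∣ q.n := by
      intro q hq
      obtain ⟨hq2, hqD⟩ := hS q hq
      obtain ⟨c', hc1', hc2'⟩ := ULP_exp hWEU π q.n hπ (hn0 q hq2)
      rcases le_or_gt ((f.factorization l + 14) / 15) c' with htc' | htc'
      · exact (pow_dvd_pow π htc').trans hc1'
      · obtain ⟨-, h9⟩ := h2 D₀ F C q o f hq2 ho2 hqD hoD (hV q hq o ho) l π hl hlf hπ hπl hπ2 hπint c' htc' hc1' hc2'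
        exact absurd ((pow_dvd_pow π (by omega)).trans hc1) h9
    refine ⟨fun _ => 0, fun p hp q hqS _ y hy a b hab => ⟨?_, fun hno => ?_⟩⟩
    · obtain ⟨hp2', hpD⟩ := hS p hp
      obtain ⟨hq2, hqD⟩ := hS q hqS
      exact h1 D₀ F C p q f hp2' hq2 hpD hqD (hV p hp q hqS) l π hl hlf hπ hπl hπ2 hπint (hq q hqS) y hy a b hab
    · exfalso
      refine hno ((dvd_pow_self π ?_).trans hc1)
      omega
  · -- small exponent
    have hcq : ∀ q ∈ S, π ^ c ∣ q.n ∧ ¬ π ^ (c + 1) ∣ q.n := by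
      intro q hq
      obtain ⟨hq2, hqD⟩ := hS q hq
      exact h2 D₀ F C o q f ho2 hq2 hoD hqD (hV o ho q hq) l π hl hlf hπ hπl hπ2 hπint c htc hc1 hc2
    choose A B hAB using fun p : Pt => C.co (z p)
    have hco : ∀ p ∈ S, π ^ (f.factorization l) ∣ B p * HH (-(w2 * (D₀ : OO))) (A p) (B p) ∧
        ¬ π ^ (2 * c + 1) ∣ (A p) ^ 2 - (B p) ^ 2 * (-(w2 * (D₀ : OO))) := by
      intro p hp
      obtain ⟨hp2', hpD⟩ := hS p hp
      obtain ⟨h8, h9⟩ := h4 D₀ F C o p f ho2 hp2' hoD hpD (z p) (hz p hp) (A p) (B p) (hAB p)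
      refine ⟨?_, ?_⟩
      · have h10 : ((l ^ f.factorization l : ℕ) : OO) ∣ (f : OO) := Nat.cast_dvd_cast (Nat.ordProj_dvd f l)
        rw [Nat.cast_pow] at h10
        exact (pow_dvd_pow_of_dvd hπl _).trans (h10.trans h8)
      · rw [h9]
        have h10 := v2 o.n p.n c c hc2 (hcq p hp).2
        have h11 := v2 100 (o.n * p.n) 0 (c + c) (by rw [zero_add, pow_one]; exact hp100) h10
        have e : 0 + (c + c) + 1 = 2 * c + 1 := by ring
        rwa [e] at h11
    have hUTI : ∀ p ∈ S, ∀ q ∈ S, ∀ y : 𝓞 F, y ^ 5 = C.σ (C.σ (uu C f p)) * uu C f q → ∀ a b : OO,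
        10 * y = C.ι a + C.ι b * C.w → A p * B q - A q * B p = b * (10 * o.n) := by
      intro p hp q hq y hy a b hab
      obtain ⟨hp2', hpD⟩ := hS p hp
      obtain ⟨hq2, hqD⟩ := hS q hq
      have h8 := (h3 D₀ F C o p q f ho2 hp2' hq2 hoD hpD hqD (z p) (z q) y (hz p hp) (hz q hq) hy).2
        (A p) (B p) (A q) (B q) a b (hAB p) (hAB q) hab
      rw [h8]
      ring
    have hno10 : ¬ π ^ (c + 1) ∣ 10 * o.n := by
      have h8 := v2 10 o.n 0 c (by rw [zero_add, pow_one]; exact hp10) hc2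
      rwa [zero_add] at h8
    rcases Nat.eq_zero_or_pos c with hc0 | hc0
    · subst hc0
      obtain ⟨lab, hlab⟩ := h5 π (-(w2 * (D₀ : OO))) (f.factorization l) hπ hp2 hpr5
      refine ⟨fun p => lab (A p, B p), fun p hp q hq hpq y hy a b hab => ?_⟩
      have h8 := hlab (A p, B p) (A q, B q) (hco p hp).1 (by simpa using (hco p hp).2) (hco q hq).1
        (by simpa using (hco q hq).2) hpq
      have h9 : π ^ (f.factorization l) ∣ b * (10 * o.n) := by
        rw [← hUTI p hp q hq y hy a b hab]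
        exact h8
      have h10 := v1 b (10 * o.n) (f.factorization l) 0 h9 hno10
      rw [Nat.sub_zero] at h10
      exact ⟨(pow_dvd_pow π (by omega)).trans h10, fun _ => h10⟩
    · have hW : ¬ π ^ 2 ∣ (-(w2 * (D₀ : OO))) := by
        intro hd
        rw [dvd_neg, mul_comm] at hd
        have hw2 : ¬ π ∣ w2 := by
          intro h8
          refine hp5 ?_
          have h9 : w2 * star w2 = (5 : OO) := by
            ext <;> rfl
          rw [← h9]
          exact Dvd.dvd.mul_right h8 _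
        have h8 := v1 (D₀ : OO) w2 2 0 hd (by rw [zero_add, pow_one]; exact hw2)
        rw [Nat.sub_zero] at h8
        obtain ⟨D₁, hD₁⟩ := hπint D₀ ((dvd_pow_self π (by norm_num)).trans h8)
        have h9 : (D₀ : OO) = (D₁ : OO) * (l : OO) := by
          rw [hD₁]
          push_cast
          ring
        rw [h9] at h8
        have h10 := v1 (D₁ : OO) (l : OO) 2 1 h8 hπ2
        obtain ⟨D₂, hD₂⟩ := hπint D₁ (by simpa using h10)
        have h11 : (l : ℤ) * l ∣ D₀ := ⟨D₂, by rw [hD₁, hD₂]; ring⟩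
        have h12 := hsq (l : ℤ) h11
        exact (Nat.prime_iff_prime_int.mp hl).not_isUnit h12
      obtain ⟨lab, hlab⟩ := h6 π (-(w2 * (D₀ : OO))) c (f.factorization l) hπ hp2 hpr5 hW hc0
      refine ⟨fun p => lab (A p, B p), fun p hp q hq hpq y hy a b hab => ?_⟩
      have h8 := hlab (A p, B p) (A q, B q) (hco p hp).1 (hco p hp).2 (hco q hq).1 (hco q hq).2 hpq
      have h9 : π ^ (f.factorization l - 13 * c) ∣ b * (10 * o.n) := by
        rw [← hUTI p hp q hq y hy a b hab]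
        exact h8
      have h10 := v1 b (10 * o.n) (f.factorization l - 13 * c) c h9 hno10
      refine ⟨(pow_dvd_pow π (by omega)).trans h10, fun hno => ?_⟩
      exact absurd ((dvd_pow_self π (by omega)).trans hc1) hno

end Pool.Agent.RF
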