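import Pool.Agent.helper13.RF.SpecU
import Pool.Agent.helper60.RF.TRV

set_option autoImplicit false

namespace Pool.Agent.RF

open NumberField

theorem UTV (hUUE : UUE_stmt) : UTV_stmt := by
  intro D₀ F _ _ C p f hD0 hp hpD hnD hγ
  obtain ⟨γ, hγ⟩ := hγ
  obtain ⟨-, -, hun, hbu, hth5, -, -, hdiff, hww, -, hw0, hf0, hth0, hu0, hn0, hn0', hK0, hs4, hinj⟩ := hUUE D₀ F C p f hp hpD
  set θ := th C f p with hθ
  set u := uu C f p with hu
  set n := C.ι p.n with hn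
  set n' := C.ι (star p.n) with hn'
  have inj : Function.Injective (algebraMap (𝓞 F) F) := RingOfIntegers.coe_injective
  have cs : ∀ x : 𝓞 F, x ≠ 0 → (x : F) ≠ 0 := by
    intro x hx h
    exact hx (by simpa using h)
  have hβ0 : be C f p ≠ 0 := by
    rw [hbu]
    exact mul_ne_zero hu0 (pow_ne_zero _ hn0')
  have γ0 : γ ≠ 0 := by
    rintro rfl
    apply cs _ hβ0
    rw [hγ]
    ring
  have hby : be C f p * C.σ (C.σ u) = n ^ 5 * n' ^ 5 := by
    rw [hbu, ← hun]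
    ring
  set δ : F := (n : F) * n' / γ with hδ
  have hδ5 : δ ^ 5 = ((C.σ (C.σ u) : 𝓞 F) : F) := by
    have e1 : (be C f p : F) * (C.σ (C.σ u) : 𝓞 F) = (n : F) ^ 5 * (n' : F) ^ 5 := by
      exact_mod_cast congrArg (algebraMap (𝓞 F) F) hby
    rw [hγ] at e1
    rw [hδ, div_pow, div_eq_iff (pow_ne_zero _ γ0), mul_pow, ← e1]
    ring
  have hint : IsIntegral ℤ δ := by
    apply IsIntegral.of_pow (n := 5) (by norm_num)
    rw [hδ5]
    exact (C.σ (C.σ u)).2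
  let z : 𝓞 F := ⟨δ, hint⟩
  have hz5 : z ^ 5 = C.σ (C.σ u) := by
    apply inj
    rw [map_pow]
    exact hδ5
  have hz5' : (C.σ (C.σ z)) ^ 5 = u := by
    have := congrArg (fun x => C.σ (C.σ x)) hz5
    simp only [map_pow, hs4] at this
    exact this
  have e3 : z * C.σ (C.σ z) = n := by
    apply C.z5
    rw [mul_pow, hz5, hz5', ← hun]
    ring
  have hdom := NZB_dom
  have hne : C.σ (C.σ z) ≠ z := by
    intro hfix
    rw [hfix, hz5] at hz5'
    have e5 : θ = C.σ (C.σ θ) := by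
      apply C.z5
      have e6 := congrArg (fun x => C.σ (C.σ x)) hth5
      simp only [map_pow, map_mul, hs4] at e6
      rw [e6, hth5, hz5']
    rw [← e5, sub_self] at hdiff
    exact mul_ne_zero (mul_ne_zero hK0 hf0) hw0 hdiff.symm
  obtain ⟨a, b, hab⟩ := C.co z
  have hab' : 10 * C.σ (C.σ z) = C.ι a - C.ι b * C.w := by
    have := congrArg (fun x => C.σ (C.σ x)) hab
    simp only [map_mul C.σ, map_add, C.σι, star_star, hww, map_ofNat] at this
    rw [this]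
    ring
  have b0 : b ≠ 0 := by
    rintro rfl
    apply hne
    have h10 : (10 : 𝓞 F) ≠ 0 := by norm_num
    apply mul_left_cancel₀ h10
    rw [hab, hab', map_zero]
    ring
  have e9 : a ^ 2 + b ^ 2 * w2 * (D₀ : OO) = 100 * p.n := by
    apply hinj
    have e10 : (10 * z) * (10 * C.σ (C.σ z)) = 100 * n := by rw [← e3]; ring
    rw [hab, hab'] at e10
    simp only [map_add, map_mul, map_pow, map_intCast, map_ofNat]
    rw [← hn, ← e10]
    have := C.ww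
    linear_combination ((C.ι b) ^ 2) * this
  have ea := congrArg va e9
  have eb := congrArg vb e9
  rw [TRV_va_add, TRV_va_pow, TRV_va_mul, TRV_va_mul, TRV_va_pow, TRV_va_mul, TRV_va_int] at ea
  rw [TRV_vb_add, TRV_vb_pow, TRV_vb_mul, TRV_vb_mul, TRV_vb_pow, TRV_vb_mul, TRV_vb_int] at eb
  have h100a : va 100 = 100 := by simpa using TRV_va_int 100
  have h100b : vb 100 = 100 := by simpa using TRV_vb_int 100
  rw [h100a] at ea
  rw [h100b] at eb
  have hDr : (0 : ℝ) < (D₀ : ℝ) := by exact_mod_cast hD0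
  have wa := TRV_w2a
  have wb := TRV_w2b
  have ka : va b ^ 2 * va w2 * (D₀ : ℝ) ≤ 100 * va p.n := by nlinarith [sq_nonneg (va a)]
  have kb : vb b ^ 2 * vb w2 * (D₀ : ℝ) ≤ 100 * vb p.n := by nlinarith [sq_nonneg (vb a)]
  have ka0 : 0 ≤ va b ^ 2 * va w2 * (D₀ : ℝ) := by positivity
  have kb0 : 0 ≤ vb b ^ 2 * vb w2 * (D₀ : ℝ) := by positivity
  have kk := mul_le_mul ka kb kb0 (le_trans ka0 ka)
  have e11 : va b ^ 2 * va w2 * (D₀ : ℝ) * (vb b ^ 2 * vb w2 * (D₀ : ℝ)) = (b.norm : ℝ) ^ 2 * 5 * (D₀ : ℝ) ^ 2 := by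
    rw [← TRV_norm b, ← TRV_w2]
    ring
  have e12 : 100 * va p.n * (100 * vb p.n) = 10000 * (p.n.norm : ℝ) := by
    rw [← TRV_norm p.n]
    ring
  rw [e11, e12] at kk
  have hbn : (1 : ℝ) ≤ (b.norm : ℝ) ^ 2 := by
    have h0 : b.norm ≠ 0 := fun h => b0 (NZB_norm0 b h)
    have : (1 : ℤ) ≤ b.norm ^ 2 := by
      have := sq_nonneg b.norm
      have h2 : b.norm ^ 2 ≠ 0 := pow_ne_zero _ h0
      omega
    exact_mod_cast this
  have hnn : (p.n.norm : ℝ) ≤ (D₀ : ℝ) * (f : ℝ) ^ 2 := by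
    have h1 : p.n.norm ≤ D₀ * (f : ℤ) ^ 2 := by
      rw [← hpD]
      exact le_trans (le_abs_self _) hnD
    exact_mod_cast h1
  have h13 : 5 * (D₀ : ℝ) ^ 2 ≤ 10000 * ((D₀ : ℝ) * (f : ℝ) ^ 2) := by
    nlinarith [sq_nonneg (D₀ : ℝ)]
  have h14 : (D₀ : ℝ) ≤ 2000 * (f : ℝ) ^ 2 := by
    have : 5 * (D₀ : ℝ) * (D₀ : ℝ) ≤ 5 * (D₀ : ℝ) * (2000 * (f : ℝ) ^ 2) := by nlinarith
    exact le_of_mul_le_mul_left this (by positivity)
  exact_mod_cast h14

end Pool.Agent.RF
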